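import Pool.Agent.U133.RRT.Fa

set_option autoImplicit false

namespace Pool.Agent.U133.RRT

open Finset Filter Topology Pool.Agent.R920.CH Pool.Agent.R852.LK Pool.Agent.T2H32.RRT

lemma exists_delta (θ κ : ℝ) (hθ1 : θ < 1) (hκ : θ / (1 - θ) < κ) :
    ∃ δ : ℝ, 0 < δ ∧ δ < (1 - θ) / 4 ∧ δ < 1 ∧
      (θ + 2 * δ) * ((1 + 2 * δ) / (1 - θ - 2 * δ) + δ) + δ < κ := by
  have hne : 1 - θ - 2 * (0 : ℝ) ≠ 0 := by
    have : 0 < 1 - θ := by linarith
    simpa using this.ne'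
  have hc : ContinuousAt (fun δ : ℝ =>
      (θ + 2 * δ) * ((1 + 2 * δ) / (1 - θ - 2 * δ) + δ) + δ) 0 := by
    refine ContinuousAt.add (ContinuousAt.mul (by fun_prop) (ContinuousAt.add
      (ContinuousAt.div (by fun_prop) (by fun_prop) hne) (by fun_prop))) (by fun_prop)
  have h0 : (fun δ : ℝ => (θ + 2 * δ) * ((1 + 2 * δ) / (1 - θ - 2 * δ) + δ) + δ) 0 < κ := by
    simp only [mul_zero, add_zero, sub_zero, mul_one_div]
    exact hκ
  have h1 : ∀ᶠ δ : ℝ in 𝓝[>] 0,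
      (θ + 2 * δ) * ((1 + 2 * δ) / (1 - θ - 2 * δ) + δ) + δ < κ :=
    (hc.eventually_lt continuousAt_const h0).filter_mono nhdsWithin_le_nhds
  have h2 : ∀ᶠ δ : ℝ in 𝓝[>] 0, δ < (1 - θ) / 4 :=
    (continuousAt_id.eventually_lt continuousAt_const
      (by show (0 : ℝ) < (1 - θ) / 4; linarith)).filter_mono nhdsWithin_le_nhds
  have h3 : ∀ᶠ δ : ℝ in 𝓝[>] 0, δ < 1 :=
    (continuousAt_id.eventually_lt continuousAt_const
      (by show (0 : ℝ) < 1; norm_num)).filter_mono nhdsWithin_le_nhds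
  obtain ⟨δ, ⟨⟨g1, g2⟩, g3⟩, g4⟩ :=
    (((h1.and h2).and h3).and self_mem_nhdsWithin).exists
  exact ⟨δ, g4, g2, g3, g1⟩

theorem FB_main (hPV : PV) (hI : INE) : FB := by
  intro θ κ hθ0 hθ1 hκ
  obtain ⟨δ, hδ0, hδθ, hδ1, hδκ⟩ := exists_delta θ κ hθ1 hκ
  set u : ℝ := 1 - θ - 2 * δ with hu
  have hu0 : 0 < u := by rw [hu]; linarith
  refine ⟨1 / δ, by positivity, ?_⟩
  have e1 : ∀ᶠ y : ℕ in atTop, 4 * (3 / u + 1) ≤ (y : ℝ) ^ δ :=
    tendsto_natCast_atTop_atTop.eventually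
      ((tendsto_rpow_atTop hδ0).eventually_ge_atTop _)
  have tl : Tendsto (fun y : ℕ => Real.log (y : ℝ)) atTop atTop :=
    Real.tendsto_log_atTop.comp tendsto_natCast_atTop_atTop
  filter_upwards [card_PR δ hδ0 hδ1, e1, tl.eventually_ge_atTop (40 / δ),
    tl.eventually_ge_atTop 2, eventually_ge_atTop 1] with y hK hyδ hl40 hl2 hy1 Y hYA hYe F hF
  have hy0 : (0 : ℝ) < y := by exact_mod_cast hy1
  have hyone : (1 : ℝ) ≤ y := by exact_mod_cast hy1
  set l : ℝ := Real.log y with hl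
  have hl0 : 0 < l := by linarith
  set K : ℝ := ((PR y).card : ℝ) with hKdef
  have hK0 : 0 < K := lt_of_lt_of_le (Real.rpow_pos_of_pos hy0 _) hK
  have hY1 : 1 ≤ Y := (Real.one_le_rpow hyone (by positivity)).trans hYA
  have hY0 : 0 < Y := by linarith
  set L : ℝ := Real.log Y with hL
  have hYL : Y = Real.exp L := (Real.exp_log hY0).symm
  have hLA : l ≤ δ * L := by
    have h1 := Real.log_le_log (by positivity) hYA
    rw [Real.log_rpow hy0] at h1
    rw [← hl, ← hL] at h1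
    have h2 := mul_le_mul_of_nonneg_left h1 hδ0.le
    have e : δ * (1 / δ * l) = l := by field_simp
    linarith
  have hLθ : L ≤ (y : ℝ) ^ θ := by
    have h1 := Real.log_le_log hY0 hYe
    rwa [Real.log_exp] at h1
  have hLl : l ≤ L := by
    have : 0 ≤ L := by
      by_contra h
      push Not at h
      nlinarith
    nlinarith
  have hL1 : 1 ≤ L := by linarith
  have hL0 : 0 < L := by linarith
  have hyθ : 1 ≤ (y : ℝ) ^ θ := Real.one_le_rpow hyone hθ0.le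
  set B : ℕ := ⌈(1 + 2 * δ) * L / (u * l)⌉₊ with hB
  have hB1 : (1 + 2 * δ) * L ≤ u * B * l := by
    have h1 : (1 + 2 * δ) * L / (u * l) ≤ B := Nat.le_ceil _
    rw [div_le_iff₀ (by positivity)] at h1
    linarith
  have hB2 : (B : ℝ) < (1 + 2 * δ) * L / (u * l) + 1 :=
    Nat.ceil_lt_add_one (by positivity)
  have hB3 : (B : ℝ) * l ≤ (1 + 2 * δ) * L / u + δ * L := by
    have h1 := mul_le_mul_of_nonneg_right hB2.le hl0.le
    have e : ((1 + 2 * δ) * L / (u * l) + 1) * l = (1 + 2 * δ) * L / u + l := by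
      field_simp
    linarith
  have hB4 : 4 * (B : ℝ) ≤ (y : ℝ) ^ (θ + δ) := by
    have h1 : (1 + 2 * δ) * L / (u * l) ≤ 3 / u * (y : ℝ) ^ θ := by
      rw [div_le_iff₀ (by positivity)]
      have e : 3 / u * (y : ℝ) ^ θ * (u * l) = 3 * (y : ℝ) ^ θ * l := by field_simp
      rw [e]
      have h2 : (1 + 2 * δ) * L ≤ 3 * (y : ℝ) ^ θ := by nlinarith
      nlinarith
    rw [Real.rpow_add hy0]
    have h3 : 4 * (B : ℝ) ≤ (4 * (3 / u + 1)) * (y : ℝ) ^ θ := by nlinarith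
    calc 4 * (B : ℝ) ≤ (4 * (3 / u + 1)) * (y : ℝ) ^ θ := h3
      _ ≤ (y : ℝ) ^ δ * (y : ℝ) ^ θ := by gcongr
      _ = _ := by ring
  have hKB1 : (y : ℝ) ^ ((1 - δ) * B) ≤ K ^ B := by
    rw [Real.rpow_mul hy0.le, Real.rpow_natCast]
    exact pow_le_pow_left₀ (by positivity) hK _
  have hcB : (4 * (B : ℝ)) ^ B ≤ (y : ℝ) ^ ((θ + δ) * B) := by
    rw [Real.rpow_mul hy0.le, Real.rpow_natCast]
    exact pow_le_pow_left₀ (by positivity) hB4 _
  set W : ℝ := 8 * Y * (1 + Real.log (4 * Y ^ 2)) with hW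
  have hlog4 : Real.log 4 ≤ 2 := by
    rw [show (4 : ℝ) = 2 ^ 2 by norm_num, Real.log_pow]
    push_cast
    linarith [Real.log_two_lt_d9]
  have hlogY : Real.log (4 * Y ^ 2) = Real.log 4 + 2 * L := by
    rw [Real.log_mul (by norm_num) (by positivity), Real.log_pow]
    push_cast; ring
  have hlogpos : 0 ≤ Real.log (4 * Y ^ 2) := Real.log_nonneg (by nlinarith)
  have hW0 : 0 ≤ W := by positivity
  have h2W : 2 * W ≤ Real.exp ((1 + 2 * δ) * L) := by
    have h1 : 16 * (1 + Real.log (4 * Y ^ 2)) ≤ Real.exp (2 * δ * L) := by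
      have h2 := Real.quadratic_le_exp_of_nonneg (by positivity : 0 ≤ 2 * δ * L)
      have h3 : 40 ≤ δ * (δ * L) := by
        have h4 : 40 / δ ≤ δ * L := hl40.trans hLA
        rw [div_le_iff₀ hδ0] at h4
        linarith
      have h5 : 80 * L ≤ (2 * δ * L) ^ 2 / 2 := by
        have e : (2 * δ * L) ^ 2 / 2 = 2 * (δ * (δ * L)) * L := by ring
        rw [e]
        nlinarith
      rw [hlogY]
      have h6 : 0 ≤ 2 * δ * L := by positivity
      linarith
    calc 2 * W = Y * (16 * (1 + Real.log (4 * Y ^ 2))) := by rw [hW]; ring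
      _ ≤ Y * Real.exp (2 * δ * L) := mul_le_mul_of_nonneg_left h1 hY0.le
      _ = Real.exp ((1 + 2 * δ) * L) := by
          rw [hYL, ← Real.exp_add]
          congr 1
          ring
  have hyexp : ∀ t : ℝ, (y : ℝ) ^ t = Real.exp (t * l) := fun t => by
    rw [Real.rpow_def_of_pos hy0]; congr 1; ring
  have hcond : 2 * (4 * (B : ℝ)) ^ B * W ≤ K ^ B := by
    calc 2 * (4 * (B : ℝ)) ^ B * W = (4 * (B : ℝ)) ^ B * (2 * W) := by ring
      _ ≤ (y : ℝ) ^ ((θ + δ) * B) * Real.exp ((1 + 2 * δ) * L) :=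
          mul_le_mul hcB h2W (by positivity) (by positivity)
      _ ≤ (y : ℝ) ^ ((θ + δ) * B) * Real.exp (u * B * l) :=
          mul_le_mul_of_nonneg_left (Real.exp_le_exp.mpr hB1) (by positivity)
      _ = (y : ℝ) ^ ((1 - δ) * B) := by
          rw [hyexp, hyexp, ← Real.exp_add]
          congr 1
          rw [hu]; ring
      _ ≤ K ^ B := hKB1
  have hmain := hI B y (PR y) hy1 (fun p hp => (mem_PR.mp hp).2.1)
    (fun p hp => (mem_PR.mp hp).1.le) F W hW0 (pvW hPV hY0.le hF) hF.2.2 hcond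
  rw [← hKdef] at hmain
  have hKB : 0 < K ^ B := pow_pos hK0 B
  have s7 : (F.card : ℝ) * K ^ B ≤ (4 * (y : ℝ) ^ ((θ + 2 * δ) * B)) * K ^ B := by
    calc (F.card : ℝ) * K ^ B ≤ 4 * (4 * (B : ℝ)) ^ B * (y : ℝ) ^ B := hmain
      _ ≤ 4 * (y : ℝ) ^ ((θ + δ) * B) * (y : ℝ) ^ B :=
          mul_le_mul_of_nonneg_right (mul_le_mul_of_nonneg_left hcB (by norm_num))
            (pow_nonneg hy0.le _)
      _ = 4 * (y : ℝ) ^ ((θ + 2 * δ) * B) * (y : ℝ) ^ ((1 - δ) * B) := by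
          rw [← Real.rpow_natCast (y : ℝ) B, mul_assoc, mul_assoc, ← Real.rpow_add hy0,
            ← Real.rpow_add hy0]
          congr 2; ring
      _ ≤ _ := mul_le_mul_of_nonneg_left hKB1 (by positivity)
  have s8 := le_of_mul_le_mul_right s7 hKB
  have h4 : (4 : ℝ) ≤ Real.exp (δ * L) := by
    rw [← Real.exp_log (by norm_num : (0 : ℝ) < 4)]
    exact Real.exp_le_exp.mpr (by linarith)
  calc (F.card : ℝ) ≤ 4 * (y : ℝ) ^ ((θ + 2 * δ) * B) := s8
    _ ≤ Real.exp (δ * L) * Real.exp ((θ + 2 * δ) * ((1 + 2 * δ) * L / u + δ * L)) := by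
        rw [hyexp]
        have h5 : (θ + 2 * δ) * B * l ≤ (θ + 2 * δ) * ((1 + 2 * δ) * L / u + δ * L) := by
          rw [mul_assoc]
          exact mul_le_mul_of_nonneg_left hB3 (by linarith)
        gcongr
    _ = Real.exp (((θ + 2 * δ) * ((1 + 2 * δ) / u + δ) + δ) * L) := by
        rw [← Real.exp_add]
        congr 1
        field_simp
        ring
    _ ≤ Real.exp (κ * L) := Real.exp_le_exp.mpr (mul_le_mul_of_nonneg_right hδκ.le hL0.le)
    _ = Y ^ κ := by rw [Real.rpow_def_of_pos hY0]; congr 1; ring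

end Pool.Agent.U133.RRT
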