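import Pool.Agent.T2H32.RRT.PV

set_option autoImplicit false

namespace Pool.Agent.U133.RRT

open Finset Filter Topology Pool.Agent.R920.CH Pool.Agent.R852.LK Pool.Agent.T2H32.RRT

lemma ps_f_one {n : ℕ} {f s : ℤ} (h : IsDisc n (f * s ^ 2)) {p : ℕ} (hp : p ∈ PR n)
    (hd : ¬ (p : ℤ) ∣ f * s ^ 2) : ps f p = 1 := by
  obtain ⟨hp1, hp2, hp3⟩ := mem_PR.mp hp
  obtain ⟨c₁, c₂, hRR, hc⟩ := h
  have h1 : ps (f * s ^ 2) p = 1 := by
    apply ps_one_of _ p hp2 hp3 hd
    rw [← hc]
    exact square_mod hRR p hp2 hp3 (by omega)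
  rw [ps_left, sq, ps_left] at h1
  rcases Int.eq_one_or_neg_one_of_mul_eq_one h1 with h2 | h2
  · exact h2
  · exfalso
    rw [h2] at h1
    nlinarith [mul_self_nonneg (ps s p)]

theorem GOO_main : GOO := by
  intro θ hθ
  set τ : ℝ := max θ (1 / 2) with hτ
  have hτ1 : τ < 1 := max_lt hθ (by norm_num)
  have hτh : 1 / 2 ≤ τ := le_max_right _ _
  set δ : ℝ := (1 - τ) / 2 with hδ
  have hδ0 : 0 < δ := by rw [hδ]; linarith
  have hδ1 : δ < 1 := by rw [hδ]; linarith
  have e1 : ∀ᶠ y : ℕ in atTop, 8 ≤ (y : ℝ) ^ δ :=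
    tendsto_natCast_atTop_atTop.eventually
      ((tendsto_rpow_atTop hδ0).eventually_ge_atTop _)
  filter_upwards [card_PR δ hδ0 hδ1, e1, eventually_ge_atTop 1] with n hK h8 hn1 f s hne hle hD
  have hn0 : (0 : ℝ) < n := by exact_mod_cast hn1
  have hnone : (1 : ℝ) ≤ n := by exact_mod_cast hn1
  set K : ℝ := ((PR n).card : ℝ) with hKdef
  set E : Finset ℕ := (PR n).filter fun p : ℕ => (p : ℤ) ∣ f * s ^ 2 with hE
  have hle' : |((f * s ^ 2 : ℤ) : ℝ)| ≤ Real.exp ((n : ℝ) ^ τ) := by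
    refine hle.trans (Real.exp_le_exp.mpr ?_)
    exact Real.rpow_le_rpow_of_exponent_le hnone (le_max_left _ _)
  have hd1 : (∏ p ∈ E, p) ∣ (f * s ^ 2).natAbs := by
    apply Finset.prod_primes_dvd
    · intro p hp
      exact (mem_PR.mp (mem_filter.mp hp).1).2.1.prime
    · intro p hp
      exact Int.natCast_dvd.mp (mem_filter.mp hp).2
  have hd2 : 2 ^ E.card ≤ (f * s ^ 2).natAbs := by
    calc 2 ^ E.card = ∏ _p ∈ E, 2 := by rw [prod_const]
      _ ≤ ∏ p ∈ E, p := prod_le_prod' fun p hp =>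
          (mem_PR.mp (mem_filter.mp hp).1).2.1.two_le
      _ ≤ (f * s ^ 2).natAbs := Nat.le_of_dvd (Int.natAbs_pos.mpr hne) hd1
  have hd3 : ((2 : ℝ) ^ E.card) ≤ Real.exp ((n : ℝ) ^ τ) := by
    have h1 : ((2 ^ E.card : ℕ) : ℝ) ≤ ((f * s ^ 2).natAbs : ℝ) := by exact_mod_cast hd2
    rw [Nat.cast_natAbs, Int.cast_abs] at h1
    push_cast at h1
    refine h1.trans ?_
    push_cast at hle'
    exact hle'
  have hd4 : (E.card : ℝ) * Real.log 2 ≤ (n : ℝ) ^ τ := by
    have h1 := Real.log_le_log (by positivity) hd3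
    rwa [Real.log_pow, Real.log_exp] at h1
  have hl2 : (1 / 2 : ℝ) ≤ Real.log 2 := by linarith [Real.log_two_gt_d9]
  have hnτ : 8 * (n : ℝ) ^ τ ≤ K := by
    refine le_trans ?_ hK
    rw [show 1 - δ = δ + τ by rw [hδ]; ring, Real.rpow_add hn0]
    exact mul_le_mul_of_nonneg_right h8 (Real.rpow_nonneg hn0.le _)
  have hd5 : (E.card : ℝ) ≤ K / 4 := by
    have h1 : (E.card : ℝ) * (1 / 2) ≤ (n : ℝ) ^ τ :=
      (mul_le_mul_of_nonneg_left hl2 (Nat.cast_nonneg _)).trans hd4
    linarith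
  have hlow : ∀ p ∈ PR n, (1 : ℝ) - (if (p : ℤ) ∣ f * s ^ 2 then 2 else 0) ≤ (ps f p : ℝ) := by
    intro p hp
    split_ifs with h
    · have := (abs_le.mp (ps_abs f p)).1
      have h' : ((-1 : ℤ) : ℝ) ≤ (ps f p : ℝ) := by exact_mod_cast this
      push_cast at h'
      linarith
    · rw [ps_f_one hD hp h]; norm_num
  have hs := sum_le_sum hlow
  rw [sum_sub_distrib, sum_const, nsmul_eq_mul, mul_one, ← sum_filter, sum_const,
    nsmul_eq_mul, ← hE] at hs
  linarith

theorem SMA_main : SMA := by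
  intro ε hε
  filter_upwards [Pool.Agent.R852.BC.main_sub 2 1 12 ε (by norm_num) hε, eventually_ge_atTop 1]
    with n hn hn1 f hf hfn
  set T : Finset ℕ := (PR n).filter fun p : ℕ => ps f p = -1 with hT
  have hprime : ∀ p ∈ T, p.Prime := fun p hp => (mem_PR.mp (mem_filter.mp hp).1).2.1
  refine ⟨∏ p ∈ T, p, ?_, ?_⟩
  · by_contra hcon
    push Not at hcon
    apply hf
    have hP0 : 0 < ∏ p ∈ T, p := Finset.prod_pos fun p hp => (hprime p hp).pos
    apply hn f ((∏ p ∈ T, p : ℕ) : ℤ) (by exact_mod_cast hP0.ne')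
    · rw [Int.cast_natCast, abs_of_nonneg (Nat.cast_nonneg _)]
      exact hcon.le
    · exact hfn
    · intro p hp h2 hpn hpP
      have hpPR : p ∈ PR n := mem_PR.mpr ⟨by omega, hp, by omega⟩
      have hpT : p ∉ T := by
        intro h
        apply hpP
        exact_mod_cast Finset.dvd_prod_of_mem (fun p => p) h
      have hps : ps f p ≠ -1 := fun h => hpT (mem_filter.mpr ⟨hpPR, h⟩)
      by_cases hpf : (p : ℤ) ∣ f
      · exact ⟨0, by simpa using hpf⟩
      have : Fact p.Prime := ⟨hp⟩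
      have h0 : (f : ZMod p) ≠ 0 := fun h' => hpf ((ZMod.intCast_zmod_eq_zero_iff_dvd f p).mp h')
      have hps' : legendreSym p f ≠ -1 := by
        unfold ps at hps
        rw [if_pos (hp.odd_of_ne_two (by omega)), ← jacobiSym.legendreSym.to_jacobiSym] at hps
        exact hps
      have h1 : legendreSym p f = 1 := by
        rcases legendreSym.eq_one_or_neg_one p h0 with h | h
        · exact h
        · exact absurd h hps'
      rw [legendreSym.eq_one_iff p h0] at h1
      obtain ⟨r, hr⟩ := h1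
      refine ⟨(r.val : ℤ), ?_⟩
      rw [← ZMod.intCast_zmod_eq_zero_iff_dvd]
      push_cast
      rw [ZMod.natCast_zmod_val, hr]
      ring
  · intro s hs
    rw [Int.natCast_dvd]
    apply Finset.prod_primes_dvd
    · exact fun p hp => (hprime p hp).prime
    · intro p hp
      rw [← Int.natCast_dvd]
      by_contra hps
      have hpP := (mem_filter.mp hp).1
      have hpm := (mem_filter.mp hp).2
      have hp' := hprime p hp
      have hpi := Nat.prime_iff_prime_int.1 hp'
      have hpf : ¬ (p : ℤ) ∣ f := by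
        intro h
        have h0 : ps f p = 0 := by
          unfold ps
          split_ifs with ho
          · have : Fact p.Prime := ⟨hp'⟩
            rw [← jacobiSym.legendreSym.to_jacobiSym, legendreSym.eq_zero_iff]
            exact (ZMod.intCast_zmod_eq_zero_iff_dvd f p).mpr h
          · rfl
        rw [h0] at hpm
        norm_num at hpm
      have hd : ¬ (p : ℤ) ∣ f * s ^ 2 := by
        intro h
        rcases hpi.dvd_or_dvd h with h | h
        · exact hpf h
        · exact hps (hpi.dvd_of_dvd_pow h)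
      have := ps_f_one hs hpP hd
      rw [this] at hpm
      norm_num at hpm

end Pool.Agent.U133.RRT
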