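import Pool.Agent.U133.RRT.Cnt

set_option autoImplicit false

namespace Pool.Agent.U133.RRT

open Finset Filter Topology Pool.Agent.R920.CH Pool.Agent.R852.LK Pool.Agent.T2H32.RRT
  Pool.Agent.R852.BC

lemma prs_small (h : CNT) (ε : ℝ) (hε : 0 < ε) (hε1 : ε ≤ 1 / 6) : ∀ᶠ n : ℕ in atTop, ∀ H : ℝ, 1 ≤ H →
    H ≤ Real.exp ((n : ℝ) ^ (1 / 3 - ε)) → ∀ S : Finset (ℤ × ℤ),
    (∀ c ∈ S, |(c.1 : ℝ)| ≤ H ∧ |(c.2 : ℝ)| ≤ H ^ 2 ∧
      RiemannRoch n (poly2 c.1 c.2) ∧ ¬ ∃ a b : ℤ, c.1 = a + b ∧ c.2 = a * b) →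
      (S.card : ℝ) ≤ H ^ 2 / (n : ℝ) ^ (2 * Real.exp (1 / 2) - ε) := by
  classical
  have e1 : ∀ᶠ n : ℕ in atTop, (9 : ℝ) ≤ (n : ℝ) ^ (ε / 2) :=
    tendsto_natCast_atTop_atTop.eventually
      ((tendsto_rpow_atTop (by positivity : (0 : ℝ) < ε / 2)).eventually_ge_atTop _)
  filter_upwards [h (ε / 2) (by positivity), e1, eventually_ge_atTop 5]
    with n hcount h9 hn5 H hH1 hHA S hS
  have hn0 : (0 : ℝ) < n := by positivity
  have hn5' : (5 : ℝ) ≤ n := by exact_mod_cast hn5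
  have hnone : (1 : ℝ) ≤ n := by linarith
  have hH0 : 0 < H := by linarith
  have hX : 5 * H ^ 2 ≤ Real.exp ((n : ℝ) ^ (1 / 3 - ε / 2)) := by
    have hone : 1 ≤ (n : ℝ) ^ (1 / 3 - ε) := Real.one_le_rpow hnone (by linarith)
    have e2 : (n : ℝ) ^ (1 / 3 - ε / 2) = (n : ℝ) ^ (1 / 3 - ε) * (n : ℝ) ^ (ε / 2) := by
      rw [← Real.rpow_add hn0]; congr 1; ring
    have e3 : 2 + 2 * (n : ℝ) ^ (1 / 3 - ε) ≤ (n : ℝ) ^ (1 / 3 - ε / 2) := by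
      rw [e2]; nlinarith
    have e4 : (5 : ℝ) ≤ Real.exp 2 := by
      have := Real.quadratic_le_exp_of_nonneg (by norm_num : (0 : ℝ) ≤ 2)
      linarith
    calc 5 * H ^ 2 ≤ Real.exp 2 * (Real.exp ((n : ℝ) ^ (1 / 3 - ε))) ^ 2 := by gcongr
      _ = Real.exp (2 + 2 * (n : ℝ) ^ (1 / 3 - ε)) := by
          rw [← Real.exp_nat_mul, ← Real.exp_add]; push_cast; rfl
      _ ≤ _ := Real.exp_le_exp.mpr e3
  set S' : Finset ℤ := S.image fun c => c.1 ^ 2 - 4 * c.2 with hS'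
  have hc' := hcount (5 * H ^ 2) (by positivity) hX S' (by
    intro D hD
    obtain ⟨c, hc, rfl⟩ := Finset.mem_image.mp hD
    obtain ⟨h1, h2, h3, h4⟩ := hS c hc
    refine ⟨?_, fun hsq => h4 (split_of_square _ _ hsq), c.1, c.2, h3, rfl⟩
    push_cast
    have h5 : (c.1 : ℝ) ^ 2 ≤ H ^ 2 := by
      rw [← sq_abs]; exact pow_le_pow_left₀ (abs_nonneg _) h1 2
    have h6 := abs_le.mp h2
    rw [abs_le]
    constructor
    · nlinarith [sq_nonneg (c.1 : ℝ)]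
    · nlinarith [sq_nonneg (c.1 : ℝ)])
  -- the map `c ↦ (c₁, D)`
  have hcard : S.card ≤ (Finset.Icc (-(⌊H⌋₊ : ℤ)) ⌊H⌋₊ ×ˢ S').card := by
    apply Finset.card_le_card_of_injOn (fun c => (c.1, c.1 ^ 2 - 4 * c.2))
    · intro c hc
      rw [Finset.mem_coe, Finset.mem_product]
      refine ⟨?_, Finset.mem_image.mpr ⟨c, hc, rfl⟩⟩
      rw [Finset.mem_Icc]
      have h1 := (hS c hc).1
      have h2 : c.1.natAbs ≤ ⌊H⌋₊ := by
        apply Nat.le_floor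
        rw [Nat.cast_natAbs, Int.cast_abs]
        exact h1
      show -(⌊H⌋₊ : ℤ) ≤ c.1 ∧ c.1 ≤ (⌊H⌋₊ : ℤ)
      omega
    · intro c hc d hd hcd
      simp only [Prod.mk.injEq] at hcd
      obtain ⟨h1, h2⟩ := hcd
      rw [h1] at h2
      exact Prod.ext h1 (by linarith)
  rw [Finset.card_product, Int.card_Icc] at hcard
  have h1 : (((⌊H⌋₊ : ℤ) + 1 - -(⌊H⌋₊ : ℤ)).toNat : ℝ) ≤ 3 * H := by
    have e : ((⌊H⌋₊ : ℤ) + 1 - -(⌊H⌋₊ : ℤ)).toNat = 2 * ⌊H⌋₊ + 1 := by omega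
    rw [e]
    push_cast
    linarith [Nat.floor_le hH0.le]
  have h2 : (S.card : ℝ) ≤ (3 * H) * (S'.card : ℝ) := by
    calc (S.card : ℝ) ≤ ((((⌊H⌋₊ : ℤ) + 1 - -(⌊H⌋₊ : ℤ)).toNat * S'.card : ℕ) : ℝ) := by
          exact_mod_cast hcard
      _ = (((⌊H⌋₊ : ℤ) + 1 - -(⌊H⌋₊ : ℤ)).toNat : ℝ) * (S'.card : ℝ) := by push_cast; ring
      _ ≤ _ := mul_le_mul_of_nonneg_right h1 (Nat.cast_nonneg _)
  have h3 : √(5 * H ^ 2) ≤ 3 * H := by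
    rw [Real.sqrt_le_left (by positivity)]
    nlinarith
  have hp : 0 < (n : ℝ) ^ (2 * Real.exp (1 / 2) - ε / 2) := Real.rpow_pos_of_pos hn0 _
  have hp' : 0 < (n : ℝ) ^ (2 * Real.exp (1 / 2) - ε) := Real.rpow_pos_of_pos hn0 _
  have e : (n : ℝ) ^ (2 * Real.exp (1 / 2) - ε / 2) =
      (n : ℝ) ^ (2 * Real.exp (1 / 2) - ε) * (n : ℝ) ^ (ε / 2) := by
    rw [← Real.rpow_add hn0]; congr 1; ring
  calc (S.card : ℝ) ≤ (3 * H) * (S'.card : ℝ) := h2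
    _ ≤ (3 * H) * (√(5 * H ^ 2) / (n : ℝ) ^ (2 * Real.exp (1 / 2) - ε / 2)) := by gcongr
    _ ≤ (3 * H) * (3 * H / (n : ℝ) ^ (2 * Real.exp (1 / 2) - ε / 2)) := by gcongr
    _ = 9 * H ^ 2 / (n : ℝ) ^ (2 * Real.exp (1 / 2) - ε / 2) := by ring
    _ ≤ (n : ℝ) ^ (ε / 2) * H ^ 2 / (n : ℝ) ^ (2 * Real.exp (1 / 2) - ε / 2) := by gcongr
    _ = H ^ 2 / (n : ℝ) ^ (2 * Real.exp (1 / 2) - ε) := by
        rw [e]
        have : (n : ℝ) ^ (ε / 2) ≠ 0 := (Real.rpow_pos_of_pos hn0 _).ne'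
        field_simp

theorem PRS_main (h : CNT) : PRS := by
  intro ε hε
  have hm0 : 0 < min ε (1 / 6) := lt_min hε (by norm_num)
  filter_upwards [prs_small h (min ε (1 / 6)) hm0 (min_le_right _ _),
    eventually_ge_atTop 1] with n hn hn1 H hH1 hH S hS
  have hnone : (1 : ℝ) ≤ n := by exact_mod_cast hn1
  have hn0 : (0 : ℝ) < n := by linarith
  refine (hn H hH1 (hH.trans (Real.exp_le_exp.mpr
    (Real.rpow_le_rpow_of_exponent_le hnone ?_))) S hS).trans ?_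
  · linarith [min_le_left ε (1 / 6)]
  · apply div_le_div_of_nonneg_left (by positivity) (Real.rpow_pos_of_pos hn0 _)
    apply Real.rpow_le_rpow_of_exponent_le hnone
    linarith [min_le_left ε (1 / 6)]

theorem CLS_main (hA : FA) (hB : FB) (hG : GOO) : CLS := by
  intro θ κ ε hθ0 hθ1 hκ hε
  have hκ0 : 0 < κ := lt_trans (by
    have : 0 < 1 - θ := by linarith
    positivity) hκ
  obtain ⟨A, hA0, hfb⟩ := hB θ κ hθ0 hθ1 hκ
  filter_upwards [hfb, hA A ε hA0.le hε, hG θ hθ1, eventually_ge_atTop 1]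
    with n hfbn hfan hgoo hn1 X hX1 hX F hF hFF
  have hnone : (1 : ℝ) ≤ n := by exact_mod_cast hn1
  have hfew : ∀ Y : ℝ, X ≤ Y → FewP n F Y := by
    intro Y hY
    refine ⟨fun D hD => ⟨(hF D hD).1, (hF D hD).2.1.trans hY⟩, hFF, fun D hD => ?_⟩
    obtain ⟨h1, h2, h3⟩ := hF D hD
    refine hgoo D 1 (by simpa using h1) ?_ (by simpa using h3)
    simp only [one_pow, mul_one]
    exact h2.trans hX
  have hnε : 1 ≤ (n : ℝ) ^ ε := Real.one_le_rpow hnone hε.le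
  have hXκ : 1 ≤ X ^ κ := Real.one_le_rpow hX1 hκ0.le
  rcases le_or_gt ((n : ℝ) ^ A) X with h | h
  · calc (F.card : ℝ) ≤ X ^ κ := hfbn X h hX F (hfew X le_rfl)
      _ ≤ (n : ℝ) ^ ε * X ^ κ := le_mul_of_one_le_left (by linarith) hnε
  · calc (F.card : ℝ) ≤ (n : ℝ) ^ ε := hfan F (hfew _ h.le)
      _ ≤ (n : ℝ) ^ ε * X ^ κ := le_mul_of_one_le_right (by linarith) hXκ

end Pool.Agent.U133.RRT
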