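import Pool.Agent.T2H32.RRT.PV

set_option autoImplicit false

namespace Pool.Agent.U133.RRT

open Finset Filter Topology Pool.Agent.R920.CH Pool.Agent.R852.LK Pool.Agent.T2H32.RRT
  Pool.Agent.R852.BC

lemma fibP (X : ℝ) (f : ℤ) (hf : f ≠ 0) (P : ℕ) (hP : 0 < P) (S : Finset ℤ) (σ : ℤ → ℤ)
    (hS : ∀ D ∈ S, |(D : ℝ)| ≤ X ∧ 0 < σ D ∧ D = f * σ D ^ 2 ∧ (P : ℤ) ∣ σ D) :
    (S.card : ℝ) ≤ √X / P := by
  have hPz : (0 : ℤ) < P := by exact_mod_cast hP
  have hPr : (0 : ℝ) < P := by exact_mod_cast hP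
  have h := fib X (f * (P : ℤ) ^ 2) (mul_ne_zero hf (pow_ne_zero 2 hPz.ne')) S
    (fun D => σ D / P) (by
      intro D hD
      obtain ⟨h1, h2, h3, h4⟩ := hS D hD
      have h5 : σ D / P * P = σ D := Int.ediv_mul_cancel h4
      refine ⟨h1, ?_, ?_⟩
      · by_contra hcon
        push Not at hcon
        have : σ D / P * P ≤ 0 := mul_nonpos_of_nonpos_of_nonneg hcon hPz.le
        omega
      · conv_lhs => rw [h3, ← h5]
        ring)
  refine h.trans ?_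
  apply div_le_div_of_nonneg_left (Real.sqrt_nonneg _) hPr
  have hf1 : (1 : ℝ) ≤ |(f : ℝ)| := by
    have := Int.one_le_abs hf
    have h' : ((1 : ℤ) : ℝ) ≤ ((|f| : ℤ) : ℝ) := by exact_mod_cast this
    rwa [Int.cast_one, Int.cast_abs] at h'
  apply Real.le_sqrt_of_sq_le
  push_cast
  rw [abs_mul, abs_of_nonneg (by positivity : (0 : ℝ) ≤ (P : ℝ) ^ 2)]
  nlinarith [sq_nonneg (P : ℝ)]

lemma card_small (F : Finset ℤ) (R : ℝ) (hR : 1 ≤ R) (hF : ∀ f ∈ F, |(f : ℝ)| ≤ R) :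
    (F.card : ℝ) ≤ 3 * R := by
  have hsub : F ⊆ Icc (-(⌊R⌋₊ : ℤ)) ⌊R⌋₊ := by
    intro f hf
    rw [mem_Icc]
    have h2 : f.natAbs ≤ ⌊R⌋₊ := by
      apply Nat.le_floor
      rw [Nat.cast_natAbs, Int.cast_abs]
      exact hF f hf
    omega
  have h1 := card_le_card hsub
  rw [Int.card_Icc] at h1
  have e : ((⌊R⌋₊ : ℤ) + 1 - -(⌊R⌋₊ : ℤ)).toNat = 2 * ⌊R⌋₊ + 1 := by omega
  rw [e] at h1
  have h2 : (F.card : ℝ) ≤ 2 * (⌊R⌋₊ : ℝ) + 1 := by exact_mod_cast h1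
  linarith [Nat.floor_le (by linarith : 0 ≤ R)]

/-- the statement for small `ε` -/
lemma cnt_small (hA : FA) (hB : FB) (hG : GOO) (hS : SMA) (ε : ℝ) (hε : 0 < ε) (hε1 : ε ≤ 1 / 12) :
    ∀ᶠ n : ℕ in atTop, ∀ X : ℝ, 0 ≤ X →
      X ≤ Real.exp ((n : ℝ) ^ (1 / 3 - ε)) → ∀ S : Finset ℤ,
      (∀ D ∈ S, |(D : ℝ)| ≤ X ∧ ¬ IsSquare D ∧ IsDisc n D) →
      (S.card : ℝ) ≤ √X / (n : ℝ) ^ (2 * Real.exp (1 / 2) - ε) := by
  classical
  set θ : ℝ := 1 / 3 - ε / 2 with hθ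
  have hθ0 : 0 < θ := by rw [hθ]; linarith
  have hθ1 : θ < 1 / 3 := by rw [hθ]; linarith
  have hq : θ / (1 - θ) < 1 / 2 := by
    rw [div_lt_iff₀ (by linarith)]; linarith
  set κ : ℝ := (θ / (1 - θ) + 1 / 2) / 2 with hκ
  have hκ1 : θ / (1 - θ) < κ := by rw [hκ]; linarith
  have hκ2 : κ < 1 / 2 := by rw [hκ]; linarith
  have hκ0 : 0 < κ := lt_trans (by have : 0 < 1 - θ := by linarith
                                   positivity) hκ1
  set η : ℝ := 1 / 2 - κ with hη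
  have hη0 : 0 < η := by rw [hη]; linarith
  obtain ⟨A₀, hA₀, hfb⟩ := hB θ κ hθ0 (by linarith) hκ1
  set A : ℝ := max A₀ (6 / η) with hAdef
  have hA1 : A₀ ≤ A := le_max_left _ _
  have hA2 : 6 ≤ A * η := by
    have : 6 / η ≤ A := le_max_right _ _
    rwa [div_le_iff₀ hη0] at this
  have hApos : 0 < A := by linarith
  obtain ⟨he1, he2⟩ := exp_half_bounds
  have ev1 : ∀ᶠ n : ℕ in atTop, (2 : ℝ) ≤ (n : ℝ) ^ (ε / 4) :=
    tendsto_natCast_atTop_atTop.eventually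
      ((tendsto_rpow_atTop (by positivity : (0 : ℝ) < ε / 4)).eventually_ge_atTop _)
  have ev2 : ∀ᶠ n : ℕ in atTop, (14 : ℝ) ≤ (n : ℝ) ^ (1 : ℝ) :=
    tendsto_natCast_atTop_atTop.eventually
      ((tendsto_rpow_atTop (by norm_num : (0 : ℝ) < 1)).eventually_ge_atTop _)
  have ev3 : ∀ᶠ n : ℕ in atTop, (2 : ℝ) ≤ (n : ℝ) ^ (ε / 2) :=
    tendsto_natCast_atTop_atTop.eventually
      ((tendsto_rpow_atTop (by positivity : (0 : ℝ) < ε / 2)).eventually_ge_atTop _)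
  filter_upwards [hfb, hA A (ε / 4) hApos.le (by positivity), hG θ (by linarith), hS ε hε,
    ev1, ev2, ev3, eventually_ge_atTop 64] with n hfbn hfan hgoo hsma hv1 hv2 hv3 hn64 X hX0 hX S hSd
  have hn64' : (64 : ℝ) ≤ n := by exact_mod_cast hn64
  have hn0 : (0 : ℝ) < n := by linarith
  have hnone : (1 : ℝ) ≤ n := by linarith
  rw [Real.rpow_one] at hv2
  have hne : ∀ D ∈ S, D ≠ 0 := by
    rintro D hD rfl
    exact (hSd 0 hD).2.1 ⟨0, by ring⟩
  choose! sf sg h1 h2 h3 using sqf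
  set F : Finset ℤ := S.image sf with hF
  have hrep : ∀ f ∈ F, ∃ D ∈ S, sf D = f := fun f hf => Finset.mem_image.mp hf
  -- `2 X ≤ exp (n ^ θ)`
  have h2X : 2 * X ≤ Real.exp ((n : ℝ) ^ θ) := by
    have e1 : (n : ℝ) ^ θ = (n : ℝ) ^ (1 / 3 - ε) * (n : ℝ) ^ (ε / 2) := by
      rw [← Real.rpow_add hn0]; congr 1; rw [hθ]; ring
    have hone : 1 ≤ (n : ℝ) ^ (1 / 3 - ε) := Real.one_le_rpow hnone (by linarith)
    have e2 : (n : ℝ) ^ (1 / 3 - ε) + 1 ≤ (n : ℝ) ^ θ := by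
      rw [e1]; nlinarith
    have e3 : (2 : ℝ) ≤ Real.exp 1 := by linarith [Real.add_one_le_exp (1 : ℝ)]
    calc 2 * X ≤ Real.exp 1 * Real.exp ((n : ℝ) ^ (1 / 3 - ε)) := by gcongr
      _ = Real.exp ((n : ℝ) ^ (1 / 3 - ε) + 1) := by rw [← Real.exp_add]; ring_nf
      _ ≤ _ := Real.exp_le_exp.mpr e2
  have hXθ : X ≤ Real.exp ((n : ℝ) ^ θ) := by linarith
  -- properties of the squarefree parts
  have hFsf : ∀ f ∈ F, Squarefree f := by
    intro f hf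
    obtain ⟨D, hD, rfl⟩ := hrep f hf
    exact h1 D (hne D hD)
  have hF0 : ∀ f ∈ F, f ≠ 0 := fun f hf => (hFsf f hf).ne_zero
  have hFX : ∀ f ∈ F, |(f : ℝ)| ≤ X := by
    intro f hf
    obtain ⟨D, hD, rfl⟩ := hrep f hf
    refine le_trans ?_ (hSd D hD).1
    have e := h3 D (hne D hD)
    have hs1 : (1 : ℤ) ≤ sg D := h2 D (hne D hD)
    have hs2 : (1 : ℝ) ≤ (sg D : ℝ) := by exact_mod_cast hs1
    have e' : |(D : ℝ)| = |(sf D : ℝ)| * (sg D : ℝ) ^ 2 := by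
      conv_lhs => rw [e]
      push_cast
      rw [abs_mul, abs_of_nonneg (sq_nonneg (sg D : ℝ))]
    rw [e']
    exact le_mul_of_one_le_right (abs_nonneg _) (one_le_pow₀ hs2)
  have hFns : ∀ f ∈ F, ¬ IsSquare f := by
    intro f hf hsq
    obtain ⟨D, hD, rfl⟩ := hrep f hf
    obtain ⟨u, hu⟩ := hsq
    apply (hSd D hD).2.1
    refine ⟨u * sg D, ?_⟩
    conv_lhs => rw [h3 D (hne D hD), hu]
    ring
  have hFsum : ∀ f ∈ F, ((PR n).card : ℝ) / 2 ≤ ∑ p ∈ PR n, (ps f p : ℝ) := by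
    intro f hf
    obtain ⟨D, hD, rfl⟩ := hrep f hf
    have e := h3 D (hne D hD)
    obtain ⟨g1, _, g3⟩ := hSd D hD
    rw [e] at g1 g3
    exact hgoo (sf D) (sg D) (by rw [← e]; exact hne D hD) (g1.trans hXθ) g3
  have hfew : ∀ F' ⊆ F, ∀ Y : ℝ, (∀ f ∈ F', |(f : ℝ)| ≤ Y) → FewP n F' Y := by
    intro F' hF' Y hY
    refine ⟨fun f hf => ⟨hF0 f (hF' hf), hY f hf⟩, fun f hf g hg hfg hsq => ?_,
      fun f hf => hFsum f (hF' hf)⟩
    exact hfg (sq_prod f g (hFsf f (hF' hf)) (hFsf g (hF' hg)) hsq)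
  set a : ℤ → ℝ := fun f => ((S.filter fun D => sf D = f).card : ℝ) with ha
  have hsum : (S.card : ℝ) = ∑ f ∈ F, a f := by
    have := Finset.card_eq_sum_card_image sf S
    rw [ha, this]; push_cast; rfl
  have ha1 : ∀ f ∈ F, a f ≤ √X / √|(f : ℝ)| := by
    intro f hf
    apply fib X f (hF0 f hf) _ sg
    intro D hD'
    rw [Finset.mem_filter] at hD'
    refine ⟨(hSd D hD'.1).1, h2 D (hne D hD'.1), ?_⟩
    have := h3 D (hne D hD'.1)
    rwa [hD'.2] at this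
  have hsX : 0 ≤ √X := Real.sqrt_nonneg X
  -- the three parts
  set F1 : Finset ℤ := F.filter fun f : ℤ => |(f : ℝ)| ≤ (n : ℝ) ^ (4 * Real.exp (1 / 2) - ε) with hF1
  set G : Finset ℤ := F.filter fun f : ℤ => ¬ |(f : ℝ)| ≤ (n : ℝ) ^ (4 * Real.exp (1 / 2) - ε) with hGd
  set F2 : Finset ℤ := G.filter fun f : ℤ => |(f : ℝ)| ≤ (n : ℝ) ^ A with hF2
  set F3 : Finset ℤ := G.filter fun f : ℤ => ¬ |(f : ℝ)| ≤ (n : ℝ) ^ A with hF3
  have hsplit : ∑ f ∈ F, a f = ∑ f ∈ F1, a f + (∑ f ∈ F2, a f + ∑ f ∈ F3, a f) := by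
    rw [hF2, hF3, sum_filter_add_sum_filter_not, hF1, hGd, sum_filter_add_sum_filter_not]
  have hGF : G ⊆ F := filter_subset _ _
  have hF2F : F2 ⊆ F := (filter_subset _ _).trans hGF
  have hF3F : F3 ⊆ F := (filter_subset _ _).trans hGF
  -- part 1
  have p1 : ∑ f ∈ F1, a f ≤ 3 * √X / (n : ℝ) ^ 5 := by
    have hb : ∀ f ∈ F1, a f ≤ √X / (n : ℝ) ^ 12 := by
      intro f hf
      rw [hF1, mem_filter] at hf
      obtain ⟨P, hP1, hP2⟩ := hsma f (hFns f hf.1) hf.2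
      have hP1' : (n : ℝ) ^ 12 ≤ (P : ℝ) := by
        rw [← Real.rpow_natCast]; push_cast; exact hP1
      have hPpos : (0 : ℝ) < P := lt_of_lt_of_le (by positivity) hP1'
      have hPn : 0 < P := by exact_mod_cast hPpos
      have hh := fibP X f (hF0 f hf.1) P hPn (S.filter fun D => sf D = f) sg (by
        intro D hD'
        rw [Finset.mem_filter] at hD'
        have e := h3 D (hne D hD'.1)
        rw [hD'.2] at e
        refine ⟨(hSd D hD'.1).1, h2 D (hne D hD'.1), e, hP2 _ ?_⟩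
        rw [← e]
        exact (hSd D hD'.1).2.2)
      refine hh.trans ?_
      exact div_le_div_of_nonneg_left hsX (by positivity) hP1'
    have hc : (F1.card : ℝ) ≤ 3 * (n : ℝ) ^ 7 := by
      apply card_small F1 ((n : ℝ) ^ 7) (one_le_pow₀ hnone)
      intro f hf
      rw [hF1, mem_filter] at hf
      refine hf.2.trans ?_
      rw [← Real.rpow_natCast]
      apply Real.rpow_le_rpow_of_exponent_le hnone
      push_cast
      linarith
    calc ∑ f ∈ F1, a f ≤ ∑ _f ∈ F1, √X / (n : ℝ) ^ 12 := sum_le_sum hb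
      _ = (F1.card : ℝ) * (√X / (n : ℝ) ^ 12) := by rw [sum_const, nsmul_eq_mul]
      _ ≤ (3 * (n : ℝ) ^ 7) * (√X / (n : ℝ) ^ 12) :=
          mul_le_mul_of_nonneg_right hc (by positivity)
      _ = 3 * √X / (n : ℝ) ^ 5 := by
          have e : (n : ℝ) ^ 12 = (n : ℝ) ^ 7 * (n : ℝ) ^ 5 := by ring
          rw [e]; field_simp
  -- part 2
  have p2 : ∑ f ∈ F2, a f ≤ (n : ℝ) ^ (ε / 4) * (√X / (n : ℝ) ^ (2 * Real.exp (1 / 2) - ε / 2)) := by
    have hb : ∀ f ∈ F2, a f ≤ √X / (n : ℝ) ^ (2 * Real.exp (1 / 2) - ε / 2) := by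
      intro f hf
      have hfG : f ∈ G := (mem_filter.mp hf).1
      have hlarge := (mem_filter.mp hfG).2
      push Not at hlarge
      refine (ha1 f (hF2F hf)).trans ?_
      apply div_le_div_of_nonneg_left hsX (by positivity)
      have e : (n : ℝ) ^ (2 * Real.exp (1 / 2) - ε / 2) =
          √((n : ℝ) ^ (4 * Real.exp (1 / 2) - ε)) := by
        rw [Real.sqrt_eq_rpow, ← Real.rpow_mul hn0.le]; congr 1; ring
      rw [e]
      exact Real.sqrt_le_sqrt hlarge.le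
    have hc : (F2.card : ℝ) ≤ (n : ℝ) ^ (ε / 4) :=
      hfan F2 (hfew F2 hF2F _ fun f hf => (mem_filter.mp hf).2)
    calc ∑ f ∈ F2, a f ≤ ∑ _f ∈ F2, √X / (n : ℝ) ^ (2 * Real.exp (1 / 2) - ε / 2) := sum_le_sum hb
      _ = (F2.card : ℝ) * (√X / (n : ℝ) ^ (2 * Real.exp (1 / 2) - ε / 2)) := by
          rw [sum_const, nsmul_eq_mul]
      _ ≤ _ := mul_le_mul_of_nonneg_right hc (by positivity)
  -- part 3
  have p3 : ∑ f ∈ F3, a f ≤ 4 * √X / (n : ℝ) ^ 5 := by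
    have hmap : ∀ f ∈ F3, Nat.log 2 f.natAbs ∈ range n := by
      intro f hf
      rw [mem_range]
      have hf0 := hF0 f (hF3F hf)
      have h4 : 2 ^ (Nat.log 2 f.natAbs) ≤ f.natAbs :=
        Nat.pow_log_le_self 2 (Int.natAbs_pos.mpr hf0).ne'
      have h5 : ((2 : ℝ)) ^ (Nat.log 2 f.natAbs) ≤ Real.exp ((n : ℝ) ^ θ) := by
        have h6 : ((2 ^ (Nat.log 2 f.natAbs) : ℕ) : ℝ) ≤ (f.natAbs : ℝ) := by exact_mod_cast h4
        rw [Nat.cast_natAbs, Int.cast_abs] at h6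
        push_cast at h6
        exact (h6.trans (hFX f (hF3F hf))).trans hXθ
      have h7 := Real.log_le_log (by positivity) h5
      rw [Real.log_pow, Real.log_exp] at h7
      have h8 : (n : ℝ) ^ θ < n / 2 := by
        have h9 : (n : ℝ) ^ θ ≤ (n : ℝ) ^ (1 / 2 : ℝ) :=
          Real.rpow_le_rpow_of_exponent_le hnone (by linarith)
        rw [← Real.sqrt_eq_rpow] at h9
        have h10 : √(n : ℝ) < n / 2 := by
          rw [Real.sqrt_lt' (by positivity)]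
          nlinarith
        linarith
      have hl2 : (1 / 2 : ℝ) < Real.log 2 := by linarith [Real.log_two_gt_d9]
      have h11 : ((Nat.log 2 f.natAbs : ℕ) : ℝ) < n := by
        have h12 : ((Nat.log 2 f.natAbs : ℕ) : ℝ) * (1 / 2) ≤
            ((Nat.log 2 f.natAbs : ℕ) : ℝ) * Real.log 2 :=
          mul_le_mul_of_nonneg_left hl2.le (Nat.cast_nonneg _)
        linarith
      exact_mod_cast h11
    rw [← sum_fiberwise_of_maps_to hmap]
    have hj : ∀ j ∈ range n, ∑ f ∈ F3.filter (fun f => Nat.log 2 f.natAbs = j), a f ≤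
        4 * √X / (n : ℝ) ^ 6 := by
      intro j _
      set Fj : Finset ℤ := F3.filter (fun f => Nat.log 2 f.natAbs = j) with hFj
      rcases Fj.eq_empty_or_nonempty with hemp | ⟨f₀, hf₀⟩
      · rw [hemp, sum_empty]; positivity
      have hFjF : Fj ⊆ F := (filter_subset _ _).trans hF3F
      have hlow : ∀ f ∈ Fj, (2 : ℝ) ^ j ≤ |(f : ℝ)| := by
        intro f hf
        have hf0 := hF0 f (hFjF hf)
        have h4 : 2 ^ (Nat.log 2 f.natAbs) ≤ f.natAbs :=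
          Nat.pow_log_le_self 2 (Int.natAbs_pos.mpr hf0).ne'
        rw [(mem_filter.mp hf).2] at h4
        have h6 : ((2 ^ j : ℕ) : ℝ) ≤ (f.natAbs : ℝ) := by exact_mod_cast h4
        rw [Nat.cast_natAbs, Int.cast_abs] at h6
        push_cast at h6
        exact h6
      have hup : ∀ f ∈ Fj, |(f : ℝ)| ≤ (2 : ℝ) ^ (j + 1) := by
        intro f hf
        have h4 : f.natAbs < 2 ^ (Nat.log 2 f.natAbs + 1) :=
          Nat.lt_pow_succ_log_self (by norm_num) _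
        rw [(mem_filter.mp hf).2] at h4
        have h6 : (f.natAbs : ℝ) ≤ ((2 ^ (j + 1) : ℕ) : ℝ) := by exact_mod_cast h4.le
        rw [Nat.cast_natAbs, Int.cast_abs] at h6
        push_cast at h6
        exact h6
      set Y : ℝ := (2 : ℝ) ^ (j + 1) with hY
      have hY0 : 0 < Y := by positivity
      have hf₀3 : f₀ ∈ F3 := (mem_filter.mp hf₀).1
      have hf₀A := (mem_filter.mp hf₀3).2
      push Not at hf₀A
      have hYA : (n : ℝ) ^ A ≤ Y := hf₀A.le.trans (hup f₀ hf₀)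
      have hYA₀ : (n : ℝ) ^ A₀ ≤ Y :=
        (Real.rpow_le_rpow_of_exponent_le hnone hA1).trans hYA
      have hYX : Y ≤ Real.exp ((n : ℝ) ^ θ) := by
        refine le_trans ?_ h2X
        have h5 := (hlow f₀ hf₀).trans (hFX f₀ (hFjF hf₀))
        rw [hY, pow_succ]; linarith
      have hc : (Fj.card : ℝ) ≤ Y ^ κ := hfbn Y hYA₀ hYX Fj (hfew Fj hFjF Y hup)
      have hb : ∀ f ∈ Fj, a f ≤ √X / √(Y / 2) := by
        intro f hf
        refine (ha1 f (hFjF hf)).trans ?_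
        apply div_le_div_of_nonneg_left hsX (by positivity)
        apply Real.sqrt_le_sqrt
        have : Y / 2 = 2 ^ j := by rw [hY, pow_succ]; ring
        rw [this]
        exact hlow f hf
      have hY1 : 1 ≤ Y := (Real.one_le_rpow hnone hApos.le).trans hYA
      calc ∑ f ∈ Fj, a f ≤ ∑ _f ∈ Fj, √X / √(Y / 2) := sum_le_sum hb
        _ = (Fj.card : ℝ) * (√X / √(Y / 2)) := by rw [sum_const, nsmul_eq_mul]
        _ ≤ Y ^ κ * (√X / √(Y / 2)) := mul_le_mul_of_nonneg_right hc (by positivity)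
        _ = √2 * √X * (Y ^ κ / Y ^ (1 / 2 : ℝ)) := by
            rw [Real.sqrt_div hY0.le, Real.sqrt_eq_rpow Y]
            have : Y ^ (1 / 2 : ℝ) ≠ 0 := (Real.rpow_pos_of_pos hY0 _).ne'
            have h2' : √(2 : ℝ) ≠ 0 := by positivity
            field_simp
        _ = √2 * √X * (1 / Y ^ η) := by
            congr 1
            rw [hη, ← Real.rpow_sub hY0, one_div (Y ^ (1 / 2 - κ)), ← Real.rpow_neg hY0.le]
            congr 1; ring
        _ ≤ 4 * √X * (1 / (n : ℝ) ^ 6) := by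
            have h5 : (n : ℝ) ^ 6 ≤ Y ^ η := by
              calc (n : ℝ) ^ 6 = (n : ℝ) ^ (6 : ℝ) := by rw [← Real.rpow_natCast]; norm_num
                _ ≤ (n : ℝ) ^ (A * η) := Real.rpow_le_rpow_of_exponent_le hnone hA2
                _ = ((n : ℝ) ^ A) ^ η := Real.rpow_mul hn0.le _ _
                _ ≤ Y ^ η := Real.rpow_le_rpow (by positivity) hYA hη0.le
            have h6 : √(2 : ℝ) ≤ 4 := by
              rw [Real.sqrt_le_left (by norm_num)]; norm_num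
            have h7 : 1 / Y ^ η ≤ 1 / (n : ℝ) ^ 6 :=
              one_div_le_one_div_of_le (by positivity) h5
            have h8 : √2 * √X ≤ 4 * √X := mul_le_mul_of_nonneg_right h6 hsX
            exact mul_le_mul h8 h7 (by positivity) (by positivity)
        _ = 4 * √X / (n : ℝ) ^ 6 := by ring
    calc ∑ j ∈ range n, ∑ f ∈ F3.filter (fun f => Nat.log 2 f.natAbs = j), a f
        ≤ ∑ _j ∈ range n, 4 * √X / (n : ℝ) ^ 6 := sum_le_sum hj
      _ = (n : ℝ) * (4 * √X / (n : ℝ) ^ 6) := by rw [sum_const, card_range, nsmul_eq_mul]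
      _ = 4 * √X / (n : ℝ) ^ 5 := by field_simp
  -- together
  have hpow : 0 < (n : ℝ) ^ (2 * Real.exp (1 / 2) - ε) := Real.rpow_pos_of_pos hn0 _
  have q1 : 7 * √X / (n : ℝ) ^ 5 ≤ (√X / (n : ℝ) ^ (2 * Real.exp (1 / 2) - ε)) / 2 := by
    rw [div_div, div_le_div_iff₀ (by positivity) (by positivity)]
    have h5 : (n : ℝ) ^ (2 * Real.exp (1 / 2) - ε) ≤ (n : ℝ) ^ 4 := by
      rw [← Real.rpow_natCast]
      apply Real.rpow_le_rpow_of_exponent_le hnone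
      push_cast
      linarith
    have h6 : 14 * (n : ℝ) ^ (2 * Real.exp (1 / 2) - ε) ≤ (n : ℝ) ^ 5 := by
      calc 14 * (n : ℝ) ^ (2 * Real.exp (1 / 2) - ε) ≤ n * (n : ℝ) ^ 4 := by gcongr
        _ = (n : ℝ) ^ 5 := by ring
    calc 7 * √X * ((n : ℝ) ^ (2 * Real.exp (1 / 2) - ε) * 2) =
        √X * (14 * (n : ℝ) ^ (2 * Real.exp (1 / 2) - ε)) := by ring
      _ ≤ √X * (n : ℝ) ^ 5 := mul_le_mul_of_nonneg_left h6 hsX
  have q2 : (n : ℝ) ^ (ε / 4) * (√X / (n : ℝ) ^ (2 * Real.exp (1 / 2) - ε / 2)) ≤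
      (√X / (n : ℝ) ^ (2 * Real.exp (1 / 2) - ε)) / 2 := by
    have e : (n : ℝ) ^ (2 * Real.exp (1 / 2) - ε / 2) =
        (n : ℝ) ^ (2 * Real.exp (1 / 2) - ε) * ((n : ℝ) ^ (ε / 4) * (n : ℝ) ^ (ε / 4)) := by
      rw [← Real.rpow_add hn0, ← Real.rpow_add hn0]; congr 1; ring
    have hq0 : 0 < (n : ℝ) ^ (ε / 4) := Real.rpow_pos_of_pos hn0 _
    rw [e]
    have e2 : (n : ℝ) ^ (ε / 4) * (√X / ((n : ℝ) ^ (2 * Real.exp (1 / 2) - ε) *
        ((n : ℝ) ^ (ε / 4) * (n : ℝ) ^ (ε / 4)))) =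
        (√X / (n : ℝ) ^ (2 * Real.exp (1 / 2) - ε)) / (n : ℝ) ^ (ε / 4) := by
      field_simp
    rw [e2]
    exact div_le_div_of_nonneg_left (by positivity) (by norm_num) hv1
  rw [hsum, hsplit]
  have q3 : 3 * √X / (n : ℝ) ^ 5 + 4 * √X / (n : ℝ) ^ 5 = 7 * √X / (n : ℝ) ^ 5 := by ring
  linarith

theorem CNT_main (hA : FA) (hB : FB) (hG : GOO) (hS : SMA) : CNT := by
  intro ε hε
  have hm0 : 0 < min ε (1 / 12) := lt_min hε (by norm_num)
  filter_upwards [cnt_small hA hB hG hS (min ε (1 / 12)) hm0 (min_le_right _ _),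
    eventually_ge_atTop 1] with n hn hn1 X hX0 hX S hS
  have hnone : (1 : ℝ) ≤ n := by exact_mod_cast hn1
  have hn0 : (0 : ℝ) < n := by linarith
  refine (hn X hX0 (hX.trans (Real.exp_le_exp.mpr
    (Real.rpow_le_rpow_of_exponent_le hnone ?_))) S hS).trans ?_
  · linarith [min_le_left ε (1 / 12)]
  · apply div_le_div_of_nonneg_left (Real.sqrt_nonneg _) (Real.rpow_pos_of_pos hn0 _)
    apply Real.rpow_le_rpow_of_exponent_le hnone
    linarith [min_le_left ε (1 / 12)]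

end Pool.Agent.U133.RRT
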