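import Pool.Agent.U133.RRT.Low

set_option autoImplicit false

namespace Pool.Agent.U133.RRT

open Finset Filter Topology Pool.Agent.R920.CH Pool.Agent.R852.LK Pool.Agent.T2H32.RRT

/-- the number of the split pairs in the box -/
lemma card_split (H : ℝ) (hH : 1 ≤ H) (T : Finset (ℤ × ℤ))
    (hT : ∀ c ∈ T, |(c.1 : ℝ)| ≤ H ∧ |(c.2 : ℝ)| ≤ H ^ 2 ∧ ∃ a b : ℤ, c.1 = a + b ∧ c.2 = a * b) :
    (T.card : ℝ) ≤ 25 * H ^ 2 := by
  classical
  have hH0 : 0 ≤ H := by linarith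
  have hex : ∀ c : ℤ × ℤ, ∃ q : ℤ × ℤ, c ∈ T → c.1 = q.1 + q.2 ∧ c.2 = q.1 * q.2 := by
    intro c
    by_cases h : c ∈ T
    · obtain ⟨_, _, a, b, h1, h2⟩ := hT c h
      exact ⟨(a, b), fun _ => ⟨h1, h2⟩⟩
    · exact ⟨(0, 0), fun h' => absurd h' h⟩
  choose g hg using hex
  set N : ℕ := ⌊2 * H⌋₊ with hN
  have hmap : ∀ c ∈ T, g c ∈ Icc (-(N : ℤ)) N ×ˢ Icc (-(N : ℤ)) N := by
    intro c hc
    obtain ⟨h1, h2, _⟩ := hT c hc
    obtain ⟨h3, h4⟩ := hg c hc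
    set a := (g c).1
    set b := (g c).2
    rw [h3] at h1
    rw [h4] at h2
    push_cast at h1 h2
    have h5 : ((a : ℝ) + b) ^ 2 ≤ H ^ 2 := by
      rw [← sq_abs]; exact pow_le_pow_left₀ (abs_nonneg _) h1 2
    have h6 := (abs_le.mp h2).1
    have key : ∀ t : ℤ, (t : ℝ) ^ 2 ≤ 4 * H ^ 2 → t ∈ Icc (-(N : ℤ)) N := by
      intro t ht
      have h7 : |(t : ℝ)| ≤ 2 * H := abs_le_of_sq_le_sq (by nlinarith) (by linarith)
      have h8 : t.natAbs ≤ N := by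
        apply Nat.le_floor
        rw [Nat.cast_natAbs, Int.cast_abs]
        exact h7
      rw [mem_Icc]; omega
    rw [mem_product]
    exact ⟨key a (by nlinarith [sq_nonneg (b : ℝ)]), key b (by nlinarith [sq_nonneg (a : ℝ)])⟩
  have hinj : Set.InjOn g (T : Set (ℤ × ℤ)) := by
    intro c hc d hd hcd
    have h1 := hg c hc
    have h2 := hg d hd
    rw [hcd] at h1
    exact Prod.ext (h1.1.trans h2.1.symm) (h1.2.trans h2.2.symm)
  have h1 := card_le_card_of_injOn g hmap hinj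
  rw [card_product, Int.card_Icc] at h1
  have e : ((N : ℤ) + 1 - -(N : ℤ)).toNat = 2 * N + 1 := by omega
  rw [e] at h1
  have h2 : (T.card : ℝ) ≤ (2 * (N : ℝ) + 1) * (2 * (N : ℝ) + 1) := by exact_mod_cast h1
  have h3 : (N : ℝ) ≤ 2 * H := Nat.floor_le (by linarith)
  have h4 : 2 * (N : ℝ) + 1 ≤ 5 * H := by linarith
  have h5 : (0 : ℝ) ≤ 2 * (N : ℝ) + 1 := by positivity
  nlinarith

/-- **The non-split pairs dominate.** -/
theorem dominate (h : LOW) (δ : ℝ) (hδ : 0 < δ) (hδ1 : δ ≤ 1) : ∀ᶠ n : ℕ in atTop, ∀ H : ℝ,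
    (2 : ℝ) ^ ((1 + δ) * (Nat.primeCounting n : ℝ)) ≤ H → ∃ S : Finset (ℤ × ℤ),
      (∀ c ∈ S, |(c.1 : ℝ)| ≤ H ∧ |(c.2 : ℝ)| ≤ H ^ 2 ∧
        RiemannRoch n (poly2 c.1 c.2) ∧ ¬ ∃ a b : ℤ, c.1 = a + b ∧ c.2 = a * b) ∧
      H ^ (3 - δ) / (2 : ℝ) ^ (Nat.primeCounting n : ℝ) ≤ S.card ∧
      ∀ T : Finset (ℤ × ℤ), (∀ c ∈ T, |(c.1 : ℝ)| ≤ H ∧ |(c.2 : ℝ)| ≤ H ^ 2 ∧
        ∃ a b : ℤ, c.1 = a + b ∧ c.2 = a * b) → H ^ (δ / 4) * T.card ≤ S.card := by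
  have ts : Tendsto (fun n : ℕ => √(n : ℝ)) atTop atTop :=
    Real.tendsto_sqrt_atTop.comp tendsto_natCast_atTop_atTop
  filter_upwards [h (δ / 8) (by positivity), ev_pi, ts.eventually_ge_atTop (5 / (δ / 8))]
    with n hn hpi hbig H hH
  set π : ℝ := (Nat.primeCounting n : ℝ) with hπ
  set P : ℝ := (2 : ℝ) ^ π with hP
  have hP0 : 0 < P := Real.rpow_pos_of_pos (by norm_num) _
  have hπ0 : 0 ≤ π := Nat.cast_nonneg _
  have hP1 : 1 ≤ P := Real.one_le_rpow (by norm_num) hπ0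
  have hHP : P ^ (1 + δ) ≤ H := by
    rw [hP, ← Real.rpow_mul (by norm_num), mul_comm]; exact hH
  have hPH : P ≤ H := by
    refine le_trans ?_ hHP
    calc P = P ^ (1 : ℝ) := (Real.rpow_one P).symm
      _ ≤ _ := Real.rpow_le_rpow_of_exponent_le hP1 (by linarith)
  have hH1 : 1 ≤ H := hP1.trans hPH
  have hH0 : 0 < H := by linarith
  obtain ⟨S, hS, hSc⟩ := hn H (by
    refine le_trans (Real.rpow_le_rpow_of_exponent_le (by norm_num) ?_) hH
    exact mul_le_mul_of_nonneg_right (by linarith) hπ0)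
  refine ⟨S, hS, ?_, fun T hT => ?_⟩
  · refine le_trans ?_ hSc
    apply div_le_div_of_nonneg_right _ hP0.le
    exact Real.rpow_le_rpow_of_exponent_le hH1 (by linarith)
  · have h1 := card_split H hH1 T hT
    have h2 : P ≤ H ^ (1 - δ / 2) := by
      have h3 : (P ^ (1 + δ)) ^ (1 - δ / 2) ≤ H ^ (1 - δ / 2) :=
        Real.rpow_le_rpow (by positivity) hHP (by linarith)
      refine le_trans ?_ h3
      rw [← Real.rpow_mul hP0.le]
      calc P = P ^ (1 : ℝ) := (Real.rpow_one P).symm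
        _ ≤ _ := Real.rpow_le_rpow_of_exponent_le hP1 (by nlinarith)
    have h3 : (25 : ℝ) ≤ H ^ (δ / 8) := by
      have h4 : P ^ (δ / 8) ≤ H ^ (δ / 8) := Real.rpow_le_rpow hP0.le hPH (by positivity)
      refine le_trans ?_ h4
      rw [hP, ← Real.rpow_mul (by norm_num)]
      have h5 : (5 : ℝ) ≤ π * (δ / 8) := by
        rw [div_le_iff₀ (by positivity)] at hbig
        have := mul_le_mul_of_nonneg_right hpi (by positivity : 0 ≤ δ / 8)
        linarith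
      calc (25 : ℝ) ≤ 2 ^ (5 : ℝ) := by norm_num
        _ ≤ _ := Real.rpow_le_rpow_of_exponent_le (by norm_num) h5
    have h6 : H ^ (3 - δ / 8) / P ≥ H ^ (2 + 3 * δ / 8) := by
      rw [ge_iff_le, le_div_iff₀ hP0]
      calc H ^ (2 + 3 * δ / 8) * P ≤ H ^ (2 + 3 * δ / 8) * H ^ (1 - δ / 2) :=
            mul_le_mul_of_nonneg_left h2 (by positivity)
        _ = H ^ (3 - δ / 8) := by rw [← Real.rpow_add hH0]; congr 1; ring
    have h7 : H ^ (δ / 4) * (H ^ (δ / 8) * H ^ 2) = H ^ (2 + 3 * δ / 8) := by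
      rw [← Real.rpow_natCast H 2, ← Real.rpow_add hH0, ← Real.rpow_add hH0]
      congr 1; push_cast; ring
    have h8 : (T.card : ℝ) ≤ H ^ (δ / 8) * H ^ 2 := by
      refine h1.trans ?_
      exact mul_le_mul_of_nonneg_right h3 (by positivity)
    calc H ^ (δ / 4) * (T.card : ℝ) ≤ H ^ (δ / 4) * (H ^ (δ / 8) * H ^ 2) :=
          mul_le_mul_of_nonneg_left h8 (by positivity)
      _ = H ^ (2 + 3 * δ / 8) := h7
      _ ≤ _ := h6
      _ ≤ _ := hSc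

end Pool.Agent.U133.RRT
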