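import Pool.Agent.T2H32.RRT.PV

set_option autoImplicit false

namespace Pool.Agent.U133.RRT

open Finset Filter Topology Pool.Agent.R920.CH Pool.Agent.R852.LK Pool.Agent.T2H32.RRT

lemma pvW (hPV : PV) {y : ℕ} {F : Finset ℤ} {Y : ℝ} (hY : 0 ≤ Y) (hF : FewP y F Y) :
    ∀ f ∈ F, ∀ g ∈ F, f ≠ g → ∀ M : ℕ,
      |((∑ m ∈ range M, ps (f * g) m : ℤ) : ℝ)| ≤ 8 * Y * (1 + Real.log (4 * Y ^ 2)) := by
  intro f hf g hg hfg M
  obtain ⟨h1, h2, _⟩ := hF
  have hne : f * g ≠ 0 := mul_ne_zero (h1 f hf).1 (h1 g hg).1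
  refine (hPV (f * g) hne (h2 f hf g hg hfg) M).trans ?_
  have hone : (1 : ℝ) ≤ |((f * g : ℤ) : ℝ)| := by
    have := Int.one_le_abs hne
    have h' : ((1 : ℤ) : ℝ) ≤ ((|f * g| : ℤ) : ℝ) := by exact_mod_cast this
    rwa [Int.cast_one, Int.cast_abs] at h'
  have hle : |((f * g : ℤ) : ℝ)| ≤ Y ^ 2 := by
    rw [Int.cast_mul, abs_mul, sq]
    exact mul_le_mul (h1 f hf).2 (h1 g hg).2 (abs_nonneg _) hY
  have hsq : √|((f * g : ℤ) : ℝ)| ≤ Y := by
    rw [Real.sqrt_le_left hY]; exact hle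
  have hlog : Real.log (4 * |((f * g : ℤ) : ℝ)|) ≤ Real.log (4 * Y ^ 2) :=
    Real.log_le_log (by linarith) (by linarith)
  have hlog0 : 0 ≤ Real.log (4 * |((f * g : ℤ) : ℝ)|) := Real.log_nonneg (by linarith)
  apply mul_le_mul _ (by linarith) (by linarith) (by linarith)
  linarith

theorem FA_main (hPV : PV) (hI : INE) : FA := by
  intro A ε hA hε
  set B : ℕ := ⌈A⌉₊ + 3 with hB
  have hBA : A + 3 ≤ (B : ℝ) := by
    rw [hB]; push_cast
    linarith [Nat.le_ceil A]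
  have hB3 : (3 : ℝ) ≤ B := by linarith
  set δ : ℝ := min ε 1 / (2 * B) with hδ
  have hm0 : 0 < min ε 1 := lt_min hε one_pos
  have hδ0 : 0 < δ := by positivity
  have hδB : δ * B = min ε 1 / 2 := by rw [hδ]; field_simp
  have hδε : δ * B ≤ ε / 2 := by rw [hδB]; linarith [min_le_left ε 1]
  have hδh : δ * B ≤ 1 / 2 := by rw [hδB]; linarith [min_le_right ε 1]
  have hδ1 : δ ≤ 1 / 2 := by nlinarith
  set c : ℝ := (4 * B : ℝ) ^ B with hc
  have hc0 : 0 < c := by positivity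
  have e1 : ∀ᶠ y : ℕ in atTop, 4 * c ≤ (y : ℝ) ^ (ε / 2) :=
    tendsto_natCast_atTop_atTop.eventually
      ((tendsto_rpow_atTop (by positivity : (0 : ℝ) < ε / 2)).eventually_ge_atTop _)
  have e2 : ∀ᶠ y : ℕ in atTop, 2 * c ≤ (y : ℝ) :=
    tendsto_natCast_atTop_atTop.eventually_ge_atTop _
  have e3 : ∀ᶠ y : ℕ in atTop, Real.log (y : ℝ) ≤
      (1 / (32 * (A + 1))) * (y : ℝ) ^ (1 : ℝ) := by
    have h := (isLittleO_log_rpow_atTop (by norm_num : (0 : ℝ) < 1)).bound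
      (by positivity : (0 : ℝ) < 1 / (32 * (A + 1)))
    filter_upwards [tendsto_natCast_atTop_atTop.eventually h, eventually_ge_atTop 1] with y hy hy1
    rw [Real.norm_of_nonneg (Real.log_nonneg (by exact_mod_cast hy1)),
      Real.norm_of_nonneg (by positivity)] at hy
    exact hy
  filter_upwards [card_PR δ hδ0 (by linarith), e1, e2, e3, eventually_ge_atTop 64]
    with y hK h4c h2c hlog hy64 F hF
  have hy64' : (64 : ℝ) ≤ y := by exact_mod_cast hy64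
  have hy0 : (0 : ℝ) < y := by linarith
  have hyone : (1 : ℝ) ≤ y := by linarith
  rw [Real.rpow_one] at hlog
  set K : ℝ := ((PR y).card : ℝ) with hKdef
  have hK0 : 0 < K := lt_of_lt_of_le (Real.rpow_pos_of_pos hy0 _) hK
  set Y : ℝ := (y : ℝ) ^ A with hY
  have hY1 : 1 ≤ Y := Real.one_le_rpow hyone hA
  have hY0 : 0 ≤ Y := by linarith
  set W : ℝ := 8 * Y * (1 + Real.log (4 * Y ^ 2)) with hW
  have hlogY : Real.log (4 * Y ^ 2) = Real.log 4 + 2 * (A * Real.log y) := by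
    rw [Real.log_mul (by norm_num) (by positivity), Real.log_pow, hY, Real.log_rpow hy0]
    push_cast; ring
  have hlog4 : Real.log 4 ≤ 2 := by
    rw [show (4 : ℝ) = 2 ^ 2 by norm_num, Real.log_pow]
    push_cast
    linarith [Real.log_two_lt_d9]
  have hlogpos : 0 ≤ Real.log (4 * Y ^ 2) := Real.log_nonneg (by nlinarith)
  have hW0 : 0 ≤ W := by positivity
  have hAy : A * Real.log y ≤ y / 32 := by
    have h1 : A * Real.log y ≤ A * (1 / (32 * (A + 1)) * y) := mul_le_mul_of_nonneg_left hlog hA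
    have h2 : A * (1 / (32 * (A + 1)) * y) ≤ y / 32 := by
      have h3 : A * (1 / (32 * (A + 1))) ≤ 1 / 32 := by
        rw [mul_one_div, div_le_div_iff₀ (by positivity) (by norm_num)]
        nlinarith
      nlinarith
    linarith
  have hWy : W ≤ (y : ℝ) ^ (A + 1) := by
    have h1 : 8 * (1 + Real.log (4 * Y ^ 2)) ≤ y := by
      rw [hlogY]; linarith
    calc W = Y * (8 * (1 + Real.log (4 * Y ^ 2))) := by rw [hW]; ring
      _ ≤ Y * y := mul_le_mul_of_nonneg_left h1 hY0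
      _ = (y : ℝ) ^ (A + 1) := by rw [Real.rpow_add hy0, Real.rpow_one]
  have hKB1 : (y : ℝ) ^ ((1 - δ) * B) ≤ K ^ B := by
    rw [Real.rpow_mul hy0.le, Real.rpow_natCast]
    exact pow_le_pow_left₀ (by positivity) hK _
  have hcond : 2 * (4 * (B : ℝ)) ^ B * W ≤ K ^ B := by
    calc 2 * (4 * (B : ℝ)) ^ B * W ≤ y * (y : ℝ) ^ (A + 1) := by
          apply mul_le_mul _ hWy hW0 hy0.le
          rw [← hc]; exact h2c
      _ = (y : ℝ) ^ (A + 2) := by
          rw [show A + 2 = (A + 1) + 1 by ring, Real.rpow_add hy0 (A + 1), Real.rpow_one]; ring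
      _ ≤ (y : ℝ) ^ ((1 - δ) * B) := Real.rpow_le_rpow_of_exponent_le hyone (by nlinarith)
      _ ≤ K ^ B := hKB1
  have hmain := hI B y (PR y) (by omega) (fun p hp => (mem_PR.mp hp).2.1)
    (fun p hp => (mem_PR.mp hp).1.le) F W hW0 (pvW hPV hY0 hF) hF.2.2 hcond
  rw [← hKdef, ← hc] at hmain
  have hKB : 0 < K ^ B := by positivity
  have s4 : (y : ℝ) ^ B ≤ K ^ B * (y : ℝ) ^ (ε / 2) := by
    have h2 : (y : ℝ) ^ B = (y : ℝ) ^ ((1 - δ) * B) * (y : ℝ) ^ (δ * B) := by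
      rw [← Real.rpow_add hy0, ← Real.rpow_natCast]; congr 1; ring
    rw [h2]
    apply mul_le_mul hKB1 _ (by positivity) hKB.le
    exact Real.rpow_le_rpow_of_exponent_le hyone hδε
  have s7 : (F.card : ℝ) * K ^ B ≤ (4 * c * (y : ℝ) ^ (ε / 2)) * K ^ B := by
    calc (F.card : ℝ) * K ^ B ≤ 4 * c * (y : ℝ) ^ B := hmain
      _ ≤ 4 * c * (K ^ B * (y : ℝ) ^ (ε / 2)) := by gcongr
      _ = _ := by ring
  have s8 := le_of_mul_le_mul_right s7 hKB
  calc (F.card : ℝ) ≤ 4 * c * (y : ℝ) ^ (ε / 2) := s8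
    _ ≤ (y : ℝ) ^ (ε / 2) * (y : ℝ) ^ (ε / 2) := by gcongr
    _ = (y : ℝ) ^ ε := by rw [← Real.rpow_add hy0]; congr 1; ring

end Pool.Agent.U133.RRT
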