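import Pool.Agent.T2H32.RRT.PV

set_option autoImplicit false

namespace Pool.Agent.U133.RRT

open Polynomial Pool.Agent.R920.CH Pool.Agent.R852.LK Pool.Agent.T2H32.RRT

lemma bin_eval_lt {m k : ℕ} (h : m < k) : (bin k).eval (m : ℚ) = 0 := by
  rw [bin, eval_mul, descPochhammer_eval_eq_descFactorial, Nat.descFactorial_of_lt h]
  simp

lemma bin_eval_self (k : ℕ) : (bin k).eval (k : ℚ) = 1 := by
  rw [bin, eval_mul, eval_C, descPochhammer_eval_eq_descFactorial, Nat.descFactorial_self]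
  exact inv_mul_cancel₀ (by exact_mod_cast k.factorial_ne_zero)

/-- Newton's interpolation -/
lemma newton (f : ℚ[X]) (hf : IsIntegerValued f) (k : ℕ) :
    ∃ z : ℕ → ℤ, ∀ m < k, (f - ∑ j ∈ Finset.range k, C (z j : ℚ) * bin j).eval (m : ℚ) = 0 := by
  induction k with
  | zero => exact ⟨fun _ => 0, fun m hm => absurd hm (Nat.not_lt_zero _)⟩
  | succ k ih =>
    obtain ⟨z, hz⟩ := ih
    -- the value at `k` is an integer
    have hint : ∃ w : ℤ, (f - ∑ j ∈ Finset.range k, C (z j : ℚ) * bin j).eval (k : ℚ) = w := by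
      obtain ⟨a, ha⟩ := hf k
      have hb : ∀ j, ∃ b : ℤ, (bin j).eval (k : ℚ) = b := fun j => by
        have := bin_int j k
        push_cast at this
        exact this
      choose b hb using hb
      refine ⟨a - ∑ j ∈ Finset.range k, z j * b j, ?_⟩
      rw [eval_sub, eval_finsetSum]
      push_cast
      push_cast at ha
      rw [ha]
      congr 1
      refine Finset.sum_congr rfl fun j _ => ?_
      rw [eval_mul, eval_C, hb]
    obtain ⟨w, hw⟩ := hint
    refine ⟨fun j => if j < k then z j else w, fun m hm => ?_⟩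
    have hsum : ∑ j ∈ Finset.range k, C (((if j < k then z j else w : ℤ)) : ℚ) * bin j =
        ∑ j ∈ Finset.range k, C (z j : ℚ) * bin j :=
      Finset.sum_congr rfl fun j hj => by rw [if_pos (Finset.mem_range.mp hj)]
    have hk : (fun j => if j < k then z j else w) k = w := if_neg (lt_irrefl k)
    rw [Finset.sum_range_succ, hk, hsum, ← sub_sub, eval_sub, eval_mul, eval_C]
    rcases Nat.lt_succ_iff_lt_or_eq.mp hm with h | h
    · rw [hz m h, bin_eval_lt h]; ring
    · rw [h, hw, bin_eval_self]; ring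

lemma bin_clear (k n : ℕ) (h : k ≤ n) :
    ∃ g : ℤ[X], C (n.factorial : ℚ) * bin k = g.map (Int.castRingHom ℚ) := by
  obtain ⟨t, ht⟩ := Nat.factorial_dvd_factorial h
  refine ⟨C (t : ℤ) * descPochhammer ℤ k, ?_⟩
  rw [Polynomial.map_mul, map_C, descPochhammer_map, bin, ← mul_assoc, ← C_mul]
  congr 2
  rw [ht]
  push_cast
  have : (k.factorial : ℚ) ≠ 0 := by exact_mod_cast k.factorial_ne_zero
  rw [eq_intCast, Int.cast_natCast]
  field_simp

/-- `n! f` has integral coefficients -/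
lemma clear (n : ℕ) (f : ℚ[X]) (hf : IsIntegerValued f) (hd : f.natDegree ≤ n) :
    ∃ g : ℤ[X], C (n.factorial : ℚ) * f = g.map (Int.castRingHom ℚ) := by
  obtain ⟨z, hz⟩ := newton f hf (n + 1)
  set r : ℚ[X] := f - ∑ j ∈ Finset.range (n + 1), C (z j : ℚ) * bin j with hr
  have hdeg : (∑ j ∈ Finset.range (n + 1), C (z j : ℚ) * bin j).natDegree ≤ n := by
    apply natDegree_sum_le_of_forall_le
    intro j hj
    refine (natDegree_C_mul_le _ _).trans ((natDegree_bin j).trans ?_)
    have := Finset.mem_range.mp hj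
    omega
  have hrd : r.natDegree ≤ n := (natDegree_sub_le _ _).trans (max_le hd hdeg)
  have hr0 : r = 0 := by
    apply Polynomial.eq_zero_of_natDegree_lt_card_of_eval_eq_zero' r
      ((Finset.range (n + 1)).image fun m : ℕ => (m : ℚ))
    · intro x hx
      obtain ⟨m, hm, rfl⟩ := Finset.mem_image.mp hx
      exact hz m (Finset.mem_range.mp hm)
    · rw [Finset.card_image_of_injective _ Nat.cast_injective, Finset.card_range]
      omega
  have hfs : f = ∑ j ∈ Finset.range (n + 1), C (z j : ℚ) * bin j := sub_eq_zero.mp hr0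
  have hb : ∀ k : ℕ, ∃ g : ℤ[X], k ≤ n →
      C (n.factorial : ℚ) * bin k = g.map (Int.castRingHom ℚ) := by
    intro k
    by_cases h : k ≤ n
    · obtain ⟨g, hg⟩ := bin_clear k n h
      exact ⟨g, fun _ => hg⟩
    · exact ⟨0, fun h' => absurd h' h⟩
  choose g hg using hb
  refine ⟨∑ j ∈ Finset.range (n + 1), C (z j) * g j, ?_⟩
  rw [hfs, Polynomial.map_sum, Finset.mul_sum]
  refine Finset.sum_congr rfl fun j hj => ?_
  rw [Polynomial.map_mul, map_C, ← hg j (by have := Finset.mem_range.mp hj; omega)]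
  simp only [eq_intCast]
  ring

/-- the power sums of the roots of `T^2 - c T + d` -/
def pw (c d : ℤ) : ℕ → ℤ
  | 0 => 2
  | 1 => c
  | (k + 2) => c * pw c d (k + 1) - d * pw c d k

lemma pw_eq {R : Type*} [CommRing R] (c d : ℤ) (x y : R) (h1 : x + y = c) (h2 : x * y = d)
    (k : ℕ) : x ^ k + y ^ k = (pw c d k : R) ∧ x ^ (k + 1) + y ^ (k + 1) = (pw c d (k + 1) : R) := by
  induction k with
  | zero =>
    refine ⟨?_, ?_⟩
    · simp only [pw, pow_zero]; push_cast; ring
    · simp only [pw, zero_add, pow_one]; exact h1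
  | succ k ih =>
    refine ⟨ih.2, ?_⟩
    have e : x ^ (k + 1 + 1) + y ^ (k + 1 + 1) =
        (x + y) * (x ^ (k + 1) + y ^ (k + 1)) - (x * y) * (x ^ k + y ^ k) := by ring
    rw [e, ih.1, ih.2, h1, h2]
    simp only [pw]
    push_cast
    ring

lemma pw_dvd (N c d d' : ℤ) (h : N ∣ d - d') (k : ℕ) :
    N ∣ pw c d k - pw c d' k ∧ N ∣ pw c d (k + 1) - pw c d' (k + 1) := by
  induction k with
  | zero => simp [pw]
  | succ k ih =>
    refine ⟨ih.2, ?_⟩
    have e : pw c d (k + 1 + 1) - pw c d' (k + 1 + 1) =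
        c * (pw c d (k + 1) - pw c d' (k + 1)) - d * (pw c d k - pw c d' k) -
          (d - d') * pw c d' k := by
      simp only [pw]; ring
    rw [e]
    exact dvd_sub (dvd_sub (ih.2.mul_left _) (ih.1.mul_left _)) (h.mul_right _)

/-- sum of the values of an integral polynomial at two roots -/
def gs (g : ℤ[X]) (c d : ℤ) : ℤ := ∑ k ∈ Finset.range (g.natDegree + 1), g.coeff k * pw c d k

lemma gs_eq {R : Type*} [CommRing R] (g : ℤ[X]) (c d : ℤ) (x y : R) (h1 : x + y = c)
    (h2 : x * y = d) : aeval x g + aeval y g = (gs g c d : R) := by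
  rw [aeval_eq_sum_range, aeval_eq_sum_range, gs, ← Finset.sum_add_distrib]
  push_cast
  refine Finset.sum_congr rfl fun k _ => ?_
  rw [← (pw_eq c d x y h1 h2 k).1, zsmul_eq_mul, zsmul_eq_mul]
  ring

lemma gs_dvd (g : ℤ[X]) (N c d d' : ℤ) (h : N ∣ d - d') : N ∣ gs g c d - gs g c d' := by
  rw [gs, gs, ← Finset.sum_sub_distrib]
  refine Finset.dvd_sum fun k _ => ?_
  rw [← mul_sub]
  exact ((pw_dvd N c d d' h k).1).mul_left _

theorem LOC_main : LOC := by
  intro n c₁ c₂ a hdvd f hf hd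
  obtain ⟨g, hg⟩ := clear n f hf hd
  obtain ⟨x, y, hxy, h1, h2⟩ := roots2 c₁ c₂
  rw [hxy]
  have hsum : (Multiset.map (fun x => aeval x f) ({x, y} : Multiset ℂ)).sum =
      aeval x f + aeval y f := by
    simp
  rw [hsum]
  have hfac : (n.factorial : ℂ) ≠ 0 := by exact_mod_cast n.factorial_ne_zero
  have key : ∀ w : ℂ, (n.factorial : ℂ) * aeval w f = aeval w g := by
    intro w
    have h := congrArg (fun q : ℚ[X] => aeval w q) hg
    simp only [map_mul, aeval_C] at h
    rw [show (algebraMap ℚ ℂ) (n.factorial : ℚ) = (n.factorial : ℂ) by simp] at h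
    rw [h, aeval_def, eval₂_map, aeval_def]
    congr 1
  have keyq : ∀ w : ℤ, ∃ v : ℤ, (n.factorial : ℤ) * v = g.eval w := by
    intro w
    obtain ⟨v, hv⟩ := hf w
    refine ⟨v, ?_⟩
    have h := congrArg (fun q : ℚ[X] => q.eval (w : ℚ)) hg
    simp only [eval_mul, eval_C] at h
    rw [hv, eval_intCast_map] at h
    simp only [eq_intCast] at h
    exact_mod_cast h
  have hgs1 : aeval x g + aeval y g = ((gs g c₁ c₂ : ℤ) : ℂ) := gs_eq g c₁ c₂ x y h1 h2
  have hgs2 : aeval a g + aeval (c₁ - a) g = gs g c₁ (a * (c₁ - a)) := by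
    have := gs_eq (R := ℤ) g c₁ (a * (c₁ - a)) a (c₁ - a) (by simp) (by simp)
    simpa using this
  have hd2 : (n.factorial : ℤ) ∣ c₂ - a * (c₁ - a) := by
    have : c₂ - a * (c₁ - a) = a ^ 2 - c₁ * a + c₂ := by ring
    rw [this]; exact hdvd
  have hd3 := gs_dvd g (n.factorial : ℤ) c₁ c₂ (a * (c₁ - a)) hd2
  have hd4 : (n.factorial : ℤ) ∣ gs g c₁ (a * (c₁ - a)) := by
    rw [← hgs2]
    obtain ⟨v, hv⟩ := keyq a
    obtain ⟨w, hw⟩ := keyq (c₁ - a)
    have e1 : aeval a g = g.eval a := by rw [coe_aeval_eq_eval]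
    have e2 : aeval (c₁ - a) g = g.eval (c₁ - a) := by rw [coe_aeval_eq_eval]
    rw [e1, e2, ← hv, ← hw]
    exact dvd_add (dvd_mul_right _ _) (dvd_mul_right _ _)
  have hd5 : (n.factorial : ℤ) ∣ gs g c₁ c₂ := (dvd_sub_left hd4).mp hd3
  obtain ⟨z, hz⟩ := hd5
  refine ⟨z, ?_⟩
  apply mul_left_cancel₀ hfac
  rw [mul_add, key, key, hgs1, hz]
  push_cast
  ring

end Pool.Agent.U133.RRT
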