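import Pool.Agent.T2H32.RRT.PV

set_option autoImplicit false

namespace Pool.Agent.U133.RRT

open Finset Pool.Agent.R920.CH Pool.Agent.R852.LK Pool.Agent.T2H32.RRT

lemma card_PR_succ (n : ℕ) (hn : 2 ≤ n) : (PR (n + 1)).card + 1 = Nat.primeCounting n := by
  rw [Nat.primeCounting, Nat.primeCounting', Nat.count_eq_card_filter_range]
  have h : PR (n + 1) = ((range (n + 1)).filter Nat.Prime).erase 2 := by
    ext p
    rw [mem_PR, mem_erase, mem_filter, mem_range]
    tauto
  have h2 : 2 ∈ (range (n + 1)).filter Nat.Prime :=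
    mem_filter.mpr ⟨mem_range.mpr (by omega), Nat.prime_two⟩
  rw [h]
  exact card_erase_add_one h2

/-- the class of `q` -/
noncomputable def code (n q : ℕ) : ℕ × Finset ℕ :=
  (q % 8, (PR (n + 1)).filter fun p => jacobiSym q p = 1)

theorem PIG_main : PIG := by
  classical
  intro n Y hn
  set T : Finset ℕ := (Icc (n + 1) Y).filter Nat.Prime with hT
  set m : ℕ := T.card with hm
  set V : Finset (ℕ × Finset ℕ) := ({1, 3, 5, 7} : Finset ℕ) ×ˢ (PR (n + 1)).powerset with hV
  have hVc : V.card = 2 ^ (Nat.primeCounting n + 1) := by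
    rw [hV, card_product, card_powerset, ← card_PR_succ n hn]
    have : ({1, 3, 5, 7} : Finset ℕ).card = 4 := by decide
    rw [this]; ring
  have hTm : ∀ q ∈ T, n < q ∧ q ≤ Y ∧ q.Prime := by
    intro q hq
    rw [hT, mem_filter, mem_Icc] at hq
    exact ⟨by omega, hq.1.2, hq.2⟩
  have hcode : ∀ q ∈ T, code n q ∈ V := by
    intro q hq
    obtain ⟨h1, h2, h3⟩ := hTm q hq
    rw [hV, mem_product]
    refine ⟨?_, mem_powerset.mpr (filter_subset _ _)⟩
    have hodd : q % 2 = 1 := (h3.odd_of_ne_two (by omega)) |> Nat.odd_iff.mp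
    have h8 : q % 8 = 1 ∨ q % 8 = 3 ∨ q % 8 = 5 ∨ q % 8 = 7 := by omega
    simp only [code, mem_insert, mem_singleton]
    exact h8
  set E : Finset (ℕ × ℕ) := (T ×ˢ T).filter fun q => code n q.1 = code n q.2 with hE
  set O : Finset (ℕ × ℕ) := E.filter fun q => q.1 ≠ q.2 with hO
  -- the number of pairs
  have hE1 : E.card = ∑ v ∈ V, ((T.filter fun q => code n q = v).card) ^ 2 := by
    have hmap : ∀ q ∈ E, code n q.1 ∈ V := by
      intro q hq
      exact hcode _ (mem_product.mp (mem_filter.mp hq).1).1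
    rw [card_eq_sum_card_fiberwise hmap]
    refine sum_congr rfl fun v _ => ?_
    rw [sq, ← card_product]
    congr 1
    ext q
    simp only [hE, mem_filter, mem_product]
    constructor
    · rintro ⟨⟨⟨h1, h2⟩, h3⟩, h4⟩
      exact ⟨⟨h1, h4⟩, h2, by rw [← h3, h4]⟩
    · rintro ⟨⟨h1, h2⟩, h3, h4⟩
      exact ⟨⟨⟨h1, h3⟩, by rw [h2, h4]⟩, h2⟩
  have hT1 : m = ∑ v ∈ V, (T.filter fun q => code n q = v).card :=
    card_eq_sum_card_fiberwise hcode
  have hCS : (m : ℝ) ^ 2 ≤ (2 : ℝ) ^ (Nat.primeCounting n + 1) * (E.card : ℝ) := by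
    have h := sq_sum_le_card_mul_sum_sq (s := V)
      (f := fun v => ((T.filter fun q => code n q = v).card : ℝ))
    rw [hE1]
    have e1 : (m : ℝ) = ∑ v ∈ V, ((T.filter fun q => code n q = v).card : ℝ) := by
      rw [hT1]; push_cast; rfl
    rw [e1]
    refine h.trans (le_of_eq ?_)
    rw [hVc]
    push_cast
    rfl
  have hEO : E.card ≤ O.card + m := by
    have hsub : E ⊆ O ∪ T.image fun q => (q, q) := by
      intro q hq
      rw [mem_union]
      by_cases h : q.1 = q.2
      · right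
        refine mem_image.mpr ⟨q.1, (mem_product.mp (mem_filter.mp hq).1).1, ?_⟩
        exact Prod.ext rfl h
      · left
        exact mem_filter.mpr ⟨hq, h⟩
    refine (card_le_card hsub).trans ((card_union_le _ _).trans ?_)
    exact Nat.add_le_add_left card_image_le _
  have hOm : ∀ q ∈ O, q.1 ∈ T ∧ q.2 ∈ T ∧ code n q.1 = code n q.2 ∧ q.1 ≠ q.2 := by
    intro q hq
    rw [hO, mem_filter, hE, mem_filter, mem_product] at hq
    exact ⟨hq.1.1.1, hq.1.1.2, hq.1.2, hq.2⟩
  set S : Finset ℤ := O.image fun q => ((q.1 * q.2 : ℕ) : ℤ) with hS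
  have hOS : O.card ≤ 2 * S.card := by
    apply card_le_mul_card_image
    intro D hD
    obtain ⟨q, hq, rfl⟩ := mem_image.mp hD
    obtain ⟨h1, h2, _, _⟩ := hOm q hq
    have hsub : (O.filter fun r => ((r.1 * r.2 : ℕ) : ℤ) = ((q.1 * q.2 : ℕ) : ℤ)) ⊆
        {(q.1, q.2), (q.2, q.1)} := by
      intro r hr
      rw [mem_filter] at hr
      obtain ⟨h5, h6, _, _⟩ := hOm r hr.1
      have hprod : r.1 * r.2 = q.1 * q.2 := by exact_mod_cast hr.2
      have hr1 := (hTm _ h5).2.2
      have hr2 := (hTm _ h6).2.2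
      have hq1 := (hTm _ h1).2.2
      have hq2 := (hTm _ h2).2.2
      have hdvd : r.1 ∣ q.1 * q.2 := ⟨r.2, hprod.symm⟩
      rw [mem_insert, mem_singleton]
      rcases (hr1.dvd_mul).mp hdvd with h | h
      · left
        have e := (Nat.prime_dvd_prime_iff_eq hr1 hq1).mp h
        rw [e] at hprod
        exact Prod.ext e (Nat.eq_of_mul_eq_mul_left hq1.pos hprod)
      · right
        have e := (Nat.prime_dvd_prime_iff_eq hr1 hq2).mp h
        rw [e, mul_comm q.1] at hprod
        exact Prod.ext e (Nat.eq_of_mul_eq_mul_left hq2.pos hprod)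
    exact (card_le_card hsub).trans card_le_two
  refine ⟨S, ?_, ?_⟩
  · intro D hD
    obtain ⟨⟨q, r⟩, hqr, rfl⟩ := mem_image.mp hD
    obtain ⟨hq, hr, hc, hne⟩ := hOm _ hqr
    simp only at hq hr hc hne ⊢
    obtain ⟨q1, q2, q3⟩ := hTm q hq
    obtain ⟨r1, r2, r3⟩ := hTm r hr
    have hmod : q % 8 = r % 8 := congrArg Prod.fst hc
    have hfil : ((PR (n + 1)).filter fun p => jacobiSym q p = 1) =
        ((PR (n + 1)).filter fun p => jacobiSym r p = 1) := congrArg Prod.snd hc
    refine ⟨by exact_mod_cast Nat.mul_pos q3.pos r3.pos, ?_, ?_, ?_, ?_⟩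
    · have : q * r ≤ Y * Y := Nat.mul_le_mul q2 r2
      rw [sq]; exact_mod_cast this
    · rintro ⟨t, ht⟩
      have hqi := Nat.prime_iff_prime_int.1 q3
      have h1 : (q : ℤ) ∣ t * t := ⟨r, by rw [← ht]; push_cast; ring⟩
      have h2 : (q : ℤ) ∣ t := by
        rcases hqi.dvd_or_dvd h1 with h | h <;> exact h
      obtain ⟨u, rfl⟩ := h2
      have h3 : (r : ℤ) = q * (u * u) := by
        apply mul_left_cancel₀ hqi.ne_zero
        push_cast at ht
        rw [ht]; ring
      have h4 : (q : ℤ) ∣ r := ⟨u * u, h3⟩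
      have h5 : q ∣ r := by exact_mod_cast h4
      exact hne ((Nat.prime_dvd_prime_iff_eq q3 r3).mp h5)
    · have hodd : q % 2 = 1 := (q3.odd_of_ne_two (by omega)) |> Nat.odd_iff.mp
      have h8 : q % 8 = 1 ∨ q % 8 = 3 ∨ q % 8 = 5 ∨ q % 8 = 7 := by omega
      have h9 : (q * r) % 8 = 1 := by
        rw [Nat.mul_mod, ← hmod]
        rcases h8 with h | h | h | h <;> rw [h]
      omega
    · intro p hp hp2 hpn
      have hpq : ¬ p ∣ q := fun h => by
        have := (Nat.prime_dvd_prime_iff_eq hp q3).mp h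
        omega
      have hpr : ¬ p ∣ r := fun h => by
        have := (Nat.prime_dvd_prime_iff_eq hp r3).mp h
        omega
      have hpd : ¬ (p : ℤ) ∣ ((q * r : ℕ) : ℤ) := by
        intro h
        have h' : p ∣ q * r := by exact_mod_cast h
        rcases (hp.dvd_mul).mp h' with h | h
        · exact hpq h
        · exact hpr h
      refine ⟨hpd, ?_⟩
      have : Fact p.Prime := ⟨hp⟩
      have hpPR : p ∈ PR (n + 1) := mem_PR.mpr ⟨by omega, hp, hp2⟩
      have hq0 : ((q : ℤ) : ZMod p) ≠ 0 := fun h' =>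
        hpq (by exact_mod_cast (ZMod.intCast_zmod_eq_zero_iff_dvd (q : ℤ) p).mp h')
      have hr0 : ((r : ℤ) : ZMod p) ≠ 0 := fun h' =>
        hpr (by exact_mod_cast (ZMod.intCast_zmod_eq_zero_iff_dvd (r : ℤ) p).mp h')
      have hiff : jacobiSym q p = 1 ↔ jacobiSym r p = 1 := by
        have h1 : p ∈ ((PR (n + 1)).filter fun p => jacobiSym q p = 1) ↔
            p ∈ ((PR (n + 1)).filter fun p => jacobiSym r p = 1) := by rw [hfil]
        simpa [mem_filter, hpPR] using h1
      rw [← jacobiSym.legendreSym.to_jacobiSym, ← jacobiSym.legendreSym.to_jacobiSym] at hiff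
      have h1 : legendreSym p ((q * r : ℕ) : ℤ) = 1 := by
        rw [Nat.cast_mul, legendreSym.mul]
        rcases legendreSym.eq_one_or_neg_one p hq0 with h | h
        · rw [h, hiff.mp h]; norm_num
        · rcases legendreSym.eq_one_or_neg_one p hr0 with h' | h'
          · rw [hiff.mpr h'] at h; norm_num at h
          · rw [h, h']; norm_num
      have h0 : (((q * r : ℕ) : ℤ) : ZMod p) ≠ 0 := fun h' =>
        hpd ((ZMod.intCast_zmod_eq_zero_iff_dvd _ p).mp h')
      rw [legendreSym.eq_one_iff p h0] at h1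
      obtain ⟨w, hw⟩ := h1
      refine ⟨(w.val : ℤ), ?_⟩
      rw [← ZMod.intCast_zmod_eq_zero_iff_dvd, Int.cast_sub, hw, Int.cast_pow, Int.cast_natCast,
        ZMod.natCast_zmod_val]
      ring
  · have hK : (0 : ℝ) < (2 : ℝ) ^ (Nat.primeCounting n + 1) := by positivity
    have h1 : (m : ℝ) ^ 2 / (2 : ℝ) ^ (Nat.primeCounting n + 1) ≤ (E.card : ℝ) := by
      rw [div_le_iff₀ hK]; linarith
    have h2 : (E.card : ℝ) ≤ O.card + m := by exact_mod_cast hEO
    have h3 : (O.card : ℝ) ≤ 2 * S.card := by exact_mod_cast hOS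
    rw [div_le_iff₀ (by norm_num)]
    linarith

end Pool.Agent.U133.RRT
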