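import Pool.Agent.T2H32.RRT.PV

set_option autoImplicit false

namespace Pool.Agent.U133.RRT

open Pool.Agent.R920.CH Pool.Agent.R852.LK Pool.Agent.T2H32.RRT

lemma sq_pow_two (D : ℤ) (h8 : D % 8 = 1) (k : ℕ) : ∃ s : ℤ, (2 : ℤ) ^ k ∣ s ^ 2 - D := by
  rcases Nat.lt_or_ge k 3 with hk | hk
  · refine ⟨1, ?_⟩
    have h1 : (8 : ℤ) ∣ 1 ^ 2 - D := by omega
    exact (pow_dvd_pow (2 : ℤ) (by omega : k ≤ 3)).trans (by norm_num; norm_num at h1; exact h1)
  · induction k, hk using Nat.le_induction with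
    | base =>
      refine ⟨1, ?_⟩
      have h1 : (8 : ℤ) ∣ 1 ^ 2 - D := by omega
      norm_num; norm_num at h1; exact h1
    | succ k hk ih =>
      obtain ⟨s, c, hc⟩ := ih
      -- `s` is odd
      have hodd : s % 2 = 1 := by
        rcases Int.emod_two_eq_zero_or_one s with h | h
        · exfalso
          obtain ⟨t, rfl⟩ : (2 : ℤ) ∣ s := Int.dvd_of_emod_eq_zero h
          obtain ⟨j, rfl⟩ : ∃ j, k = j + 1 := ⟨k - 1, by omega⟩
          rw [pow_succ] at hc
          have h2 : D = 2 * (2 * t ^ 2 - 2 ^ j * c) := by linear_combination (-1 : ℤ) * hc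
          omega
        · exact h
      rcases Int.emod_two_eq_zero_or_one c with h | h
      · obtain ⟨d, rfl⟩ : (2 : ℤ) ∣ c := Int.dvd_of_emod_eq_zero h
        exact ⟨s, d, by rw [hc]; ring⟩
      · obtain ⟨d, hd⟩ : (2 : ℤ) ∣ c + s := by omega
        obtain ⟨j, rfl⟩ : ∃ j, k = j + 3 := ⟨k - 3, by omega⟩
        refine ⟨s + 2 ^ (j + 2), d + 2 ^ j, ?_⟩
        have e : (s + 2 ^ (j + 2)) ^ 2 - D = (s ^ 2 - D) + 2 ^ (j + 3) * s + 2 ^ (2 * (j + 2)) := by
          ring
        rw [e, hc]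
        have e2 : (2 : ℤ) ^ (2 * (j + 2)) = 2 ^ (j + 3 + 1) * 2 ^ j := by
          rw [← pow_add]; congr 1; ring
        rw [e2]
        have e3 : (2 : ℤ) ^ (j + 3) * c + 2 ^ (j + 3) * s = 2 ^ (j + 3 + 1) * d := by
          rw [pow_succ (2 : ℤ) (j + 3), mul_assoc, ← hd]; ring
        rw [e3]; ring

lemma sq_pow_odd (D : ℤ) (p : ℕ) (hp : p.Prime) (hp2 : p ≠ 2) (hD : ¬ (p : ℤ) ∣ D)
    (ht : ∃ t : ℤ, (p : ℤ) ∣ D - t ^ 2) (k : ℕ) : ∃ s : ℤ, (p : ℤ) ^ k ∣ s ^ 2 - D := by
  rcases Nat.eq_zero_or_pos k with rfl | hk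
  · exact ⟨0, by simp⟩
  · have hpi := Nat.prime_iff_prime_int.1 hp
    induction k, hk using Nat.le_induction with
    | base =>
      obtain ⟨t, ht⟩ := ht
      refine ⟨t, ?_⟩
      rw [pow_one]
      rw [show t ^ 2 - D = - (D - t ^ 2) by ring]
      exact (dvd_neg).mpr ht
    | succ k hk ih =>
      obtain ⟨s, c, hc⟩ := ih
      have hk1 : 1 ≤ k := hk
      have hps : ¬ (p : ℤ) ∣ 2 * s := by
        intro h
        rcases hpi.dvd_or_dvd h with h | h
        · have h1 : p ∣ 2 := by exact_mod_cast h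
          rcases (Nat.prime_dvd_prime_iff_eq hp Nat.prime_two).mp h1 with h2
          exact hp2 h2
        · apply hD
          have h1 : (p : ℤ) ∣ s ^ 2 := by rw [sq]; exact h.mul_right _
          have h2 : (p : ℤ) ∣ s ^ 2 - D := by
            rw [hc]
            exact (dvd_pow_self _ (by omega)).mul_right _
          have h3 := dvd_sub h1 h2
          simpa using h3
      obtain ⟨u, v, huv⟩ := (Irreducible.coprime_iff_not_dvd hpi.irreducible).mpr hps
      -- `u * p + v * (2 * s) = 1`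
      refine ⟨s + p ^ k * (-(v * c)), ?_⟩
      obtain ⟨j, rfl⟩ : ∃ j, k = j + 1 := ⟨k - 1, by omega⟩
      refine ⟨c * u + p ^ j * (v * c) ^ 2, ?_⟩
      have e : (s + (p : ℤ) ^ (j + 1) * (-(v * c))) ^ 2 - D =
          (s ^ 2 - D) - p ^ (j + 1) * c * (v * (2 * s)) + p ^ (2 * (j + 1)) * (v * c) ^ 2 := by
        ring
      rw [e, hc, show v * (2 * s) = 1 - u * p by linarith]
      ring

theorem SQR_main : SQR := by
  intro n N D hN0 hN h8 hD
  induction N using Nat.recOnPosPrimePosCoprime with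
  | prime_pow p k hp hk =>
    have hpn : p ≤ n := hN p hp (dvd_pow_self p (by omega))
    by_cases h2 : p = 2
    · subst h2
      obtain ⟨s, hs⟩ := sq_pow_two D h8 k
      exact ⟨s, by exact_mod_cast hs⟩
    · obtain ⟨h3, h4⟩ := hD p hp h2 hpn
      obtain ⟨s, hs⟩ := sq_pow_odd D p hp h2 h3 h4 k
      exact ⟨s, by exact_mod_cast hs⟩
  | zero => exact absurd hN0 (lt_irrefl _)
  | one => exact ⟨0, by simp⟩
  | coprime a b ha hb hab iha ihb =>
    obtain ⟨s, hs⟩ := iha (by omega) fun p hp hpa => hN p hp (hpa.mul_right b)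
    obtain ⟨t, ht⟩ := ihb (by omega) fun p hp hpb => hN p hp (hpb.mul_left a)
    obtain ⟨u, v, huv⟩ := Nat.isCoprime_iff_coprime.mpr hab
    refine ⟨t * (u * a) + s * (v * b), ?_⟩
    push_cast
    apply IsCoprime.mul_dvd (Nat.isCoprime_iff_coprime.mpr hab)
    · have e : (t * (u * a) + s * (v * b)) ^ 2 - D = (s ^ 2 - D) +
          a * (u * (t - s) * ((t * (u * a) + s * (v * b)) + s)) := by
        have h1 : s * (v * b) = s - s * (u * a) := by linear_combination s * huv
        rw [h1]; ring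
      rw [e]
      exact dvd_add hs (dvd_mul_right _ _)
    · have e : (t * (u * a) + s * (v * b)) ^ 2 - D = (t ^ 2 - D) +
          b * (v * (s - t) * ((t * (u * a) + s * (v * b)) + t)) := by
        have h1 : t * (u * a) = t - t * (v * b) := by linear_combination t * huv
        rw [h1]; ring
      rw [e]
      exact dvd_add ht (dvd_mul_right _ _)

end Pool.Agent.U133.RRT
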