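import Pool.Agent.U133.RRT.Loc
import Pool.Agent.U133.RRT.Sqr
import Pool.Agent.U133.RRT.Pig

set_option autoImplicit false

namespace Pool.Agent.U133.RRT

open Finset Filter Topology Pool.Agent.R920.CH Pool.Agent.R852.LK Pool.Agent.T2H32.RRT

/-- the number of the primes up to `n` is at least `√n` -/
lemma ev_pi : ∀ᶠ n : ℕ in atTop, √(n : ℝ) ≤ (Nat.primeCounting n : ℝ) := by
  filter_upwards [card_PP (1 / 2) (by norm_num)] with n hn
  rw [Real.sqrt_eq_rpow]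
  rw [show (1 : ℝ) - 1 / 2 = 1 / 2 by norm_num] at hn
  refine hn.trans (le_of_eq ?_)
  rw [Nat.primeCounting, Nat.primeCounting', Nat.count_eq_card_filter_range]
  congr 2
  ext p
  rw [mem_filter, mem_filter, mem_Icc, mem_range]
  constructor
  · rintro ⟨h1, h2⟩; exact ⟨by omega, h2⟩
  · rintro ⟨h1, h2⟩; exact ⟨⟨h2.one_lt.le, by omega⟩, h2⟩

lemma ev_exp : ∀ᶠ n : ℕ in atTop, (8 * (n : ℝ)) ^ 4 ≤ (2 : ℝ) ^ √(n : ℝ) := by
  have h := (isLittleO_pow_exp_pos_mul_atTop 8 (Real.log_pos (by norm_num : (1 : ℝ) < 2))).bound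
    (by norm_num : (0 : ℝ) < 1 / 8 ^ 4)
  have ts : Tendsto (fun n : ℕ => √(n : ℝ)) atTop atTop :=
    Real.tendsto_sqrt_atTop.comp tendsto_natCast_atTop_atTop
  filter_upwards [ts.eventually h] with n hn
  rw [Real.norm_of_nonneg (by positivity), Real.norm_of_nonneg (by positivity)] at hn
  rw [Real.rpow_def_of_pos (by norm_num)]
  have e : (√(n : ℝ)) ^ 8 = (n : ℝ) ^ 4 := by
    rw [show 8 = 2 * 4 by norm_num, pow_mul, Real.sq_sqrt (Nat.cast_nonneg n)]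
  rw [e] at hn
  rw [mul_pow]
  have h8 : (0 : ℝ) < 8 ^ 4 := by norm_num
  calc (8 : ℝ) ^ 4 * (n : ℝ) ^ 4 ≤ 8 ^ 4 * (1 / 8 ^ 4 * Real.exp (Real.log 2 * √(n : ℝ))) :=
        mul_le_mul_of_nonneg_left hn h8.le
    _ = _ := by field_simp

/-- a discriminant as in `PIG` gives a pair which satisfies the Riemann-Roch conditions -/
lemma rr_of (h1 : LOC) (h2 : SQR) (n : ℕ) (hn : 2 ≤ n) (D c₁ : ℤ) (h8 : D % 8 = 1)
    (hD : ∀ p : ℕ, p.Prime → p ≠ 2 → p ≤ n → ¬ (p : ℤ) ∣ D ∧ ∃ t : ℤ, (p : ℤ) ∣ D - t ^ 2)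
    (hc : c₁ % 2 = 1) (c₂ : ℤ) (hcc : 4 * c₂ = c₁ ^ 2 - D) : RiemannRoch n (poly2 c₁ c₂) := by
  obtain ⟨s, hs⟩ := h2 n (4 * n.factorial) D (by positivity) (by
    intro p hp hdvd
    rcases (hp.dvd_mul).mp hdvd with h | h
    · have h4 : p ∣ 2 ^ 2 := by norm_num; exact h
      have := (Nat.prime_dvd_prime_iff_eq hp Nat.prime_two).mp (hp.dvd_of_dvd_pow h4)
      omega
    · exact (hp.dvd_factorial).mp h) h8 hD
  push_cast at hs
  obtain ⟨k, hk⟩ := hs
  have hsodd : s % 2 = 1 := by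
    rcases Int.emod_two_eq_zero_or_one s with h | h
    · exfalso
      obtain ⟨t, rfl⟩ : (2 : ℤ) ∣ s := Int.dvd_of_emod_eq_zero h
      have : D = 2 * (2 * t ^ 2 - 2 * (n.factorial * k)) := by linear_combination (-1 : ℤ) * hk
      omega
    · exact h
  obtain ⟨a, ha⟩ : (2 : ℤ) ∣ c₁ + s := by omega
  apply h1 n c₁ c₂ a
  refine ⟨k, ?_⟩
  have hs' : s = 2 * a - c₁ := by linarith
  rw [hs'] at hk
  have : 4 * (a ^ 2 - c₁ * a + c₂) = 4 * ((n.factorial : ℤ) * k) := by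
    linear_combination hk + hcc
  linarith

theorem LOW_main (h1 : LOC) (h2 : SQR) (h3 : PIG) : LOW := by
  classical
  intro δ₀ hδ₀
  set δ : ℝ := min δ₀ 1 with hδ
  have hδ0 : 0 < δ := lt_min hδ₀ one_pos
  have hδ1 : δ ≤ 1 := min_le_right _ _
  have hδδ : δ ≤ δ₀ := min_le_left _ _
  obtain ⟨Y₀, hY₀⟩ := Filter.eventually_atTop.mp (card_PP (δ / 8) (by positivity))
  have ts : Tendsto (fun n : ℕ => √(n : ℝ)) atTop atTop :=
    Real.tendsto_sqrt_atTop.comp tendsto_natCast_atTop_atTop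
  filter_upwards [ev_pi, ev_exp, ts.eventually_ge_atTop (9 / (3 * δ / 4)),
    eventually_ge_atTop (Y₀ + 2)] with n hpi hexp hbig hnY H hH₀
  have hn2 : 2 ≤ n := by omega
  set π : ℝ := (Nat.primeCounting n : ℝ) with hπ
  set P : ℝ := (2 : ℝ) ^ π with hP
  have hP0 : 0 < P := Real.rpow_pos_of_pos (by norm_num) _
  have hsn : 0 ≤ √(n : ℝ) := Real.sqrt_nonneg _
  have hπ0 : 0 ≤ π := Nat.cast_nonneg _
  have hH : (2 : ℝ) ^ ((1 + δ) * π) ≤ H := by
    refine le_trans (Real.rpow_le_rpow_of_exponent_le (by norm_num) ?_) hH₀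
    exact mul_le_mul_of_nonneg_right (by linarith) hπ0
  have hHP : P ≤ H := by
    refine le_trans (Real.rpow_le_rpow_of_exponent_le (by norm_num) ?_) hH
    nlinarith
  have hH4 : (8 * (n : ℝ)) ^ 4 ≤ H := by
    refine hexp.trans (le_trans ?_ hHP)
    exact Real.rpow_le_rpow_of_exponent_le (by norm_num) hpi
  have hn2' : (2 : ℝ) ≤ n := by exact_mod_cast hn2
  have h8n : (8 : ℝ) * n ≤ (8 * (n : ℝ)) ^ 4 := by
    have h1 : (1 : ℝ) ≤ 8 * n := by linarith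
    calc (8 : ℝ) * n = (8 * (n : ℝ)) ^ 1 := (pow_one _).symm
      _ ≤ _ := pow_le_pow_right₀ h1 (by norm_num)
  have hH16 : (16 : ℝ) ≤ H := by linarith
  have hH0 : (0 : ℝ) < H := by linarith
  have hH1 : (1 : ℝ) ≤ H := by linarith
  -- `n` is small
  have hnH : 8 * (n : ℝ) ≤ H ^ (1 / 4 : ℝ) := by
    have h := Real.rpow_le_rpow (by positivity) hH4 (by norm_num : (0 : ℝ) ≤ 1 / 4)
    have e : ((8 * (n : ℝ)) ^ 4) ^ (1 / 4 : ℝ) = 8 * n := by
      rw [← Real.rpow_natCast, ← Real.rpow_mul (by positivity)]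
      norm_num
    rwa [e] at h
  set h : ℝ := H ^ (1 - δ / 8) with hh
  have hh0 : 0 < h := Real.rpow_pos_of_pos hH0 _
  have hnh : 8 * (n : ℝ) ≤ h :=
    hnH.trans (Real.rpow_le_rpow_of_exponent_le hH1 (by linarith))
  set Y : ℕ := ⌊H⌋₊ with hY
  have hYH : (Y : ℝ) ≤ H := Nat.floor_le hH0.le
  have hHY : H < Y + 1 := Nat.lt_floor_add_one H
  have hYbig : Y₀ ≤ Y := by
    have h1 : ((Y₀ : ℕ) : ℝ) ≤ Y := by
      have h2 : ((Y₀ + 2 : ℕ) : ℝ) ≤ n := by exact_mod_cast hnY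
      push_cast at h2
      linarith
    exact_mod_cast h1
  have hY2 : H / 2 ≤ (Y : ℝ) := by linarith
  -- primes
  set m : ℕ := ((Icc (n + 1) Y).filter Nat.Prime).card with hm
  have hmlow : h / 4 ≤ (m : ℝ) := by
    have h1 := hY₀ Y hYbig
    have h2 : ((Icc 1 Y).filter Nat.Prime).card ≤ m + n := by
      have hsub : (Icc 1 Y).filter Nat.Prime ⊆ (Icc (n + 1) Y).filter Nat.Prime ∪ Icc 1 n := by
        intro p hp
        rw [mem_filter, mem_Icc] at hp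
        rw [mem_union, mem_filter, mem_Icc, mem_Icc]
        by_cases h : p ≤ n
        · right; exact ⟨hp.1.1, h⟩
        · left; exact ⟨⟨by omega, hp.1.2⟩, hp.2⟩
      refine (card_le_card hsub).trans ((card_union_le _ _).trans ?_)
      rw [Nat.card_Icc, Nat.add_sub_cancel]
    have h2' : (((Icc 1 Y).filter Nat.Prime).card : ℝ) ≤ m + n := by exact_mod_cast h2
    have h3 : h / 2 ≤ (Y : ℝ) ^ (1 - δ / 8) := by
      calc h / 2 ≤ h / 2 ^ (1 - δ / 8) := by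
            apply div_le_div_of_nonneg_left hh0.le (by positivity)
            calc (2 : ℝ) ^ (1 - δ / 8) ≤ 2 ^ (1 : ℝ) :=
                  Real.rpow_le_rpow_of_exponent_le (by norm_num) (by linarith)
              _ = 2 := Real.rpow_one _
        _ = (H / 2) ^ (1 - δ / 8) := by rw [Real.div_rpow hH0.le (by norm_num)]
        _ ≤ (Y : ℝ) ^ (1 - δ / 8) := Real.rpow_le_rpow (by positivity) hY2 (by linarith)
    linarith
  -- `h ≥ 16 P`
  have hδπ : 9 ≤ (3 * δ / 4) * π := by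
    rw [div_le_iff₀ (by positivity)] at hbig
    have := mul_le_mul_of_nonneg_left hpi (by positivity : 0 ≤ 3 * δ / 4)
    linarith
  have hhP : 16 * P ≤ h := by
    have h1 : (2 : ℝ) ^ (((1 + δ) * π) * (1 - δ / 8)) ≤ h := by
      rw [Real.rpow_mul (by norm_num)]
      exact Real.rpow_le_rpow (by positivity) hH (by linarith)
    refine le_trans ?_ h1
    have e : (16 : ℝ) * P = 2 ^ (4 + π) := by
      rw [Real.rpow_add (by norm_num), hP]
      norm_num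
    rw [e]
    apply Real.rpow_le_rpow_of_exponent_le (by norm_num)
    have h2 : (3 * δ / 4) * π ≤ (δ - δ / 8 - δ ^ 2 / 8) * π := by
      apply mul_le_mul_of_nonneg_right _ hπ0
      nlinarith
    nlinarith
  obtain ⟨S₀, hS₀, hS₀c⟩ := h3 n Y hn2
  rw [← hm] at hS₀c
  have hKP : (2 : ℝ) ^ (Nat.primeCounting n + 1) = 2 * P := by
    rw [hP, hπ, Real.rpow_natCast, pow_succ]; ring
  rw [hKP] at hS₀c
  have hS₀low : h ^ 2 / (128 * P) ≤ (S₀.card : ℝ) := by
    refine le_trans ?_ hS₀c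
    have hm4 : 4 * P ≤ (m : ℝ) := by linarith
    have hm0 : (0 : ℝ) ≤ m := Nat.cast_nonneg _
    have h4 : (m : ℝ) ≤ (m : ℝ) ^ 2 / (4 * P) := by
      rw [le_div_iff₀ (by positivity)]; nlinarith
    have h5 : (m : ℝ) ^ 2 / (2 * P) = 2 * ((m : ℝ) ^ 2 / (4 * P)) := by
      field_simp; ring
    have h6 : (h / 4) ^ 2 ≤ (m : ℝ) ^ 2 := pow_le_pow_left₀ (by positivity) hmlow 2
    have h7 : h ^ 2 / (128 * P) ≤ (m : ℝ) ^ 2 / (4 * P) / 2 := by
      rw [div_div, div_le_div_iff₀ (by positivity) (by positivity)]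
      nlinarith
    linarith
  -- the pairs
  set J : ℕ := Y / 2 with hJ
  have hJlow : H / 4 ≤ (J : ℝ) := by
    have h1 : Y ≤ 2 * J + 1 := by omega
    have h2 : (Y : ℝ) ≤ 2 * J + 1 := by exact_mod_cast h1
    linarith
  set g : ℕ × ℤ → ℤ × ℤ := fun q =>
    (2 * (q.1 : ℤ) + 1, ((2 * (q.1 : ℤ) + 1) ^ 2 - q.2) / 4) with hg
  have h4c : ∀ q ∈ range J ×ˢ S₀, 4 * (g q).2 = (g q).1 ^ 2 - q.2 := by
    intro q hq
    rw [mem_product] at hq
    have h8 := (hS₀ q.2 hq.2).2.2.2.1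
    simp only [hg]
    have h9 : (4 : ℤ) ∣ (2 * (q.1 : ℤ) + 1) ^ 2 - q.2 := by
      have e : (2 * (q.1 : ℤ) + 1) ^ 2 = 4 * ((q.1 : ℤ) ^ 2 + q.1) + 1 := by ring
      rw [e]; omega
    exact Int.mul_ediv_cancel' h9
  refine ⟨(range J ×ˢ S₀).image g, ?_, ?_⟩
  · intro c hc
    obtain ⟨q, hq, rfl⟩ := mem_image.mp hc
    have h4 := h4c q hq
    rw [mem_product, mem_range] at hq
    obtain ⟨hD1, hD2, hD3, hD4, hD5⟩ := hS₀ q.2 hq.2
    have hc1 : (g q).1 = 2 * (q.1 : ℤ) + 1 := rfl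
    have hYz : (g q).1 ≤ Y := by rw [hc1]; omega
    have hcpos : 0 < (g q).1 := by rw [hc1]; omega
    have hc1r : |((g q).1 : ℝ)| ≤ H := by
      have h5 : ((g q).1 : ℝ) ≤ (Y : ℝ) := by exact_mod_cast hYz
      have h6 : (0 : ℝ) < ((g q).1 : ℝ) := by exact_mod_cast hcpos
      rw [abs_of_pos h6]
      linarith
    refine ⟨hc1r, ?_, ?_, ?_⟩
    · have h5 : (4 : ℝ) * ((g q).2 : ℝ) = ((g q).1 : ℝ) ^ 2 - (q.2 : ℝ) := by exact_mod_cast h4
      have h6 : ((g q).1 : ℝ) ^ 2 ≤ H ^ 2 := by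
        rw [← sq_abs]; exact pow_le_pow_left₀ (abs_nonneg _) hc1r 2
      have h7 : (0 : ℝ) < (q.2 : ℝ) := by exact_mod_cast hD1
      have h8 : (q.2 : ℝ) ≤ (Y : ℝ) ^ 2 := by exact_mod_cast hD2
      have h9 : (Y : ℝ) ^ 2 ≤ H ^ 2 := pow_le_pow_left₀ (Nat.cast_nonneg _) hYH 2
      rw [abs_le]
      constructor
      · nlinarith [sq_nonneg ((g q).1 : ℝ), sq_nonneg H]
      · nlinarith [sq_nonneg ((g q).1 : ℝ), sq_nonneg H]
    · exact rr_of h1 h2 n hn2 q.2 (g q).1 hD4 hD5 (by rw [hc1]; omega) _ h4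
    · rintro ⟨a, b, hab, hab2⟩
      apply hD3
      refine ⟨a - b, ?_⟩
      rw [hab, hab2] at h4
      linear_combination h4
  · have hinj : Set.InjOn g ((range J ×ˢ S₀ : Finset (ℕ × ℤ)) : Set (ℕ × ℤ)) := by
      intro q hq r hr hqr
      have e1 := h4c q hq
      have e2 := h4c r hr
      rw [hqr] at e1
      have e3 : q.1 = r.1 := by
        have : (g q).1 = (g r).1 := congrArg Prod.fst hqr
        simp only [hg] at this
        omega
      have e4 : q.2 = r.2 := by linarith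
      exact Prod.ext e3 e4
    rw [card_image_of_injOn hinj, card_product, card_range]
    push_cast
    have h5 : H / 4 * (h ^ 2 / (128 * P)) ≤ (J : ℝ) * (S₀.card : ℝ) :=
      mul_le_mul hJlow hS₀low (by positivity) (Nat.cast_nonneg _)
    refine le_trans ?_ h5
    have h6 : h ^ 2 = H ^ (2 - δ / 4) := by
      rw [hh, ← Real.rpow_natCast, ← Real.rpow_mul hH0.le]
      congr 1
      push_cast; ring
    have h7 : H ^ (3 - δ / 4) = H * H ^ (2 - δ / 4) := by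
      conv_rhs => rw [← Real.rpow_one H]
      rw [← Real.rpow_mul hH0.le, ← Real.rpow_add hH0]
      congr 1; ring
    have h8 : (512 : ℝ) ≤ H ^ (3 * δ / 4) := by
      have h9 : P ^ (3 * δ / 4) ≤ H ^ (3 * δ / 4) :=
        Real.rpow_le_rpow hP0.le hHP (by positivity)
      refine le_trans ?_ h9
      rw [hP, ← Real.rpow_mul (by norm_num)]
      have e : (512 : ℝ) = 2 ^ (9 : ℝ) := by norm_num
      rw [e]
      apply Real.rpow_le_rpow_of_exponent_le (by norm_num)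
      linarith
    have h10 : H ^ (3 - δ) * 512 ≤ H ^ (3 - δ / 4) := by
      have e : H ^ (3 - δ / 4) = H ^ (3 - δ) * H ^ (3 * δ / 4) := by
        rw [← Real.rpow_add hH0]; congr 1; ring
      rw [e]
      exact mul_le_mul_of_nonneg_left h8 (by positivity)
    have h11 : H ^ (3 - δ₀) ≤ H ^ (3 - δ) :=
      Real.rpow_le_rpow_of_exponent_le hH1 (by linarith)
    calc H ^ (3 - δ₀) / P ≤ H ^ (3 - δ) / P := by gcongr
      _ = H ^ (3 - δ) * 512 / (512 * P) := by field_simp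
      _ ≤ H ^ (3 - δ / 4) / (512 * P) := by gcongr
      _ = H / 4 * (h ^ 2 / (128 * P)) := by
          rw [h7, h6]; field_simp; ring

end Pool.Agent.U133.RRT
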